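import Pool.Agent.K3h28.PA.Rc
import Pool.Agent.Y331.SS.Lim
import Pool.Agent.Y812.SS.Wr
import Pool.Agent.Y417.FJ.Am
import Pool.Agent.Y961.FJ.Perm
import Pool.Agent.Y529.FJ.Ext

/-!
# Amalgams of groups with a recursion
-/

set_option autoImplicit false

open Classical

namespace Pool.Agent.K3h28.PA

open Pool.Agent.Y462.SS
open Pool.Agent.Y331.SS (wmap wmap_s wmap_p phi mem_ker_phi)
open Pool.Agent.Y110.FJ (ClosedE Amg)

variable {X : Type} {d : X}

/-! ## the quotient by the dying elements -/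

section quot

variable {Q : Type} [Group Q] (ψ : Q →* Wr X Q)

/-- the recursion of the quotient -/
noncomputable def psiq : (Q ⧸ Kd ψ) →* Wr X (Q ⧸ Kd ψ) :=
  QuotientGroup.lift (Kd ψ) (phi ψ (Kd ψ))
    (fun γ hγ => (mem_ker_phi ψ (Kd ψ) γ).2 (dies_inv_step ψ hγ))

theorem psiq_mk (γ : Q) :
    psiq ψ (QuotientGroup.mk' (Kd ψ) γ) = wmap (QuotientGroup.mk' (Kd ψ)) (ψ γ) := rfl

theorem psiq_inj : Function.Injective (psiq ψ) := by
  rw [injective_iff_map_eq_one]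
  intro q hq
  obtain ⟨γ, rfl⟩ := QuotientGroup.mk'_surjective (Kd ψ) q
  rw [psiq_mk] at hq
  have h1 : γ ∈ (phi ψ (Kd ψ)).ker := hq
  obtain ⟨h2, h3⟩ := (mem_ker_phi ψ (Kd ψ) γ).1 h1
  exact (QuotientGroup.eq_one_iff _).2 (Dies.step γ h2 h3)

theorem not_dies_map {Q' : Type} [Group Q'] {ψ' : Q' →* Wr X Q'} (hψ : Function.Injective ψ)
    {j : Q →* Q'} (hj : Function.Injective j) (hjr : ∀ q, ψ' (j q) = wmap j (ψ q)) {γ : Q'}
    (h : Dies ψ' γ) : ∀ q, j q = γ → q = 1 := by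
  induction h with
  | one => intro q hq; exact hj (by rw [hq, map_one])
  | step γ hp _ ih =>
    rintro q rfl
    apply hψ
    rw [map_one]
    refine Wr.ext (funext fun x => ?_) ?_
    · refine ih x _ ?_
      rw [hjr, wmap_s]
    · rw [hjr, wmap_p] at hp
      exact hp

end quot

/-! ## the amalgam -/

section amal

variable {Q : Type} [Group Q] {E : Subgroup (T X)} (d) (F : Subgroup (T X)) (ρ : E →* Q)

/-- the relations -/
def Rl : Set (Monoid.Coprod Q (BB d E)) :=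
  {r | ∃ (b : T X) (h1 : b ∈ E) (h2 : b ∈ BB d E), b ∈ BB d F ∧
    r = Monoid.Coprod.inl (ρ ⟨b, h1⟩) * (Monoid.Coprod.inr (⟨b, h2⟩ : BB d E))⁻¹}

/-- the amalgam -/
abbrev Ya : Type := Monoid.Coprod Q (BB d E) ⧸ Subgroup.normalClosure (Rl d F ρ)

/-- the first factor -/
noncomputable def jl : Q →* Ya d F ρ := (QuotientGroup.mk' _).comp Monoid.Coprod.inl

/-- the second factor -/
noncomputable def jr : BB d E →* Ya d F ρ := (QuotientGroup.mk' _).comp Monoid.Coprod.inr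

theorem jl_eq_jr {b : T X} (hb : b ∈ BB d F) (h1 : b ∈ E) (h2 : b ∈ BB d E) :
    jl d F ρ (ρ ⟨b, h1⟩) = jr d F ρ ⟨b, h2⟩ := by
  have h3 : QuotientGroup.mk' (Subgroup.normalClosure (Rl d F ρ))
      (Monoid.Coprod.inl (ρ ⟨b, h1⟩) * (Monoid.Coprod.inr (⟨b, h2⟩ : BB d E))⁻¹) = 1 :=
    (QuotientGroup.eq_one_iff _).2 (Subgroup.subset_normalClosure ⟨b, h1, h2, hb, rfl⟩)
  rw [map_mul, map_inv, mul_inv_eq_one] at h3
  exact h3

/-- the universal property -/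
noncomputable def lft {H : Type} [Group H] (f : Q →* H) (g : BB d E →* H)
    (hfg : ∀ (b : T X) (h1 : b ∈ E) (h2 : b ∈ BB d E), b ∈ BB d F →
      f (ρ ⟨b, h1⟩) = g ⟨b, h2⟩) : Ya d F ρ →* H :=
  QuotientGroup.lift _ (Monoid.Coprod.lift f g) (by
    have h1 : Subgroup.normalClosure (Rl d F ρ) ≤ (Monoid.Coprod.lift f g).ker := by
      refine Subgroup.normalClosure_le_normal ?_
      rintro _ ⟨b, h1, h2, hb, rfl⟩
      change Monoid.Coprod.lift f g _ = 1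
      rw [map_mul, map_inv, Monoid.Coprod.lift_apply_inl, Monoid.Coprod.lift_apply_inr,
        hfg b h1 h2 hb, mul_inv_cancel]
    exact fun x hx => h1 hx)

section lft

variable {H : Type} [Group H] (f : Q →* H) (g : BB d E →* H)
    (hfg : ∀ (b : T X) (h1 : b ∈ E) (h2 : b ∈ BB d E), b ∈ BB d F →
      f (ρ ⟨b, h1⟩) = g ⟨b, h2⟩)

theorem lft_jl (q : Q) : lft d F ρ f g hfg (jl d F ρ q) = f q :=
  Monoid.Coprod.lift_apply_inl f g q

theorem lft_jr (b : BB d E) : lft d F ρ f g hfg (jr d F ρ b) = g b :=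
  Monoid.Coprod.lift_apply_inr f g b

end lft

theorem ya_gen : (jl d F ρ).range ⊔ (jr d F ρ).range = ⊤ := by
  rw [eq_top_iff]
  intro y hy
  clear hy
  obtain ⟨x, rfl⟩ := QuotientGroup.mk'_surjective _ y
  induction x using Monoid.Coprod.induction_on with
  | inl q => exact Subgroup.mem_sup_left ⟨q, rfl⟩
  | inr b => exact Subgroup.mem_sup_right ⟨b, rfl⟩
  | mul a b ha hb => rw [map_mul]; exact mul_mem ha hb

variable (ψ : Q →* Wr X Q)

/-- the recursion on the second factor -/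
noncomputable def psi2 : BB d E →* Wr X (Ya d F ρ) where
  toFun b := ⟨fun x => if h : x = d then jr d F ρ ⟨sec b.1 d, bb_sec b.2⟩
    else jl d F ρ (ρ ⟨sec b.1 x, bb_off b.2 h⟩), root b.1⟩
  map_one' := by
    apply Wr.ext
    · funext x
      change (if h : x = d then jr d F ρ ⟨sec 1 d, _⟩ else jl d F ρ (ρ ⟨sec 1 x, _⟩)) = 1
      by_cases hx : x = d
      · rw [dif_pos hx, ← map_one (jr d F ρ)]
        congr 1
      · rw [dif_neg hx, ← map_one (jl d F ρ), ← map_one ρ]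
        congr 1
    · exact root_one
  map_mul' a b := by
    apply Wr.ext
    · funext x
      change (if h : x = d then jr d F ρ ⟨sec (a.1 * b.1) d, _⟩
          else jl d F ρ (ρ ⟨sec (a.1 * b.1) x, _⟩)) =
        (if h : root b.1 x = d then jr d F ρ ⟨sec a.1 d, bb_sec a.2⟩
          else jl d F ρ (ρ ⟨sec a.1 (root b.1 x), bb_off a.2 h⟩)) *
        (if h : x = d then jr d F ρ ⟨sec b.1 d, bb_sec b.2⟩
          else jl d F ρ (ρ ⟨sec b.1 x, bb_off b.2 h⟩))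
      by_cases hx : x = d
      · subst hx
        rw [dif_pos rfl, dif_pos rfl, dif_pos (bb_root b.2), ← map_mul]
        congr 1
        apply Subtype.ext
        change sec (a.1 * b.1) x = sec a.1 x * sec b.1 x
        rw [sec_mul, bb_root b.2]
      · rw [dif_neg hx, dif_neg hx, dif_neg (bb_ne b.2 hx), ← map_mul, ← map_mul]
        congr 2
        apply Subtype.ext
        exact sec_mul a.1 b.1 x
    · exact root_mul a.1 b.1

variable {d F ρ ψ}

theorem psi2_d (b : BB d E) : (psi2 d F ρ b).s d = jr d F ρ ⟨sec b.1 d, bb_sec b.2⟩ :=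
  dif_pos rfl

theorem psi2_ne (b : BB d E) {x : X} (hx : x ≠ d) :
    (psi2 d F ρ b).s x = jl d F ρ (ρ ⟨sec b.1 x, bb_off b.2 hx⟩) := dif_neg hx

theorem psi_agree (hE : SelfSim E) (hρ : IsRH ψ E ρ) (b : T X) (h1 : b ∈ E) (h2 : b ∈ BB d E)
    (hb : b ∈ BB d F) : ((wmap (jl d F ρ)).comp ψ) (ρ ⟨b, h1⟩) = psi2 d F ρ ⟨b, h2⟩ := by
  apply Wr.ext
  · funext x
    change jl d F ρ ((ψ (ρ ⟨b, h1⟩)).s x) = _
    rw [hρ.s _ x (hE b h1 x)]
    by_cases hx : x = d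
    · subst hx
      rw [psi2_d]
      exact jl_eq_jr x F ρ (bb_sec hb) _ _
    · rw [psi2_ne _ hx]
  · exact hρ.p _

/-- the recursion on the amalgam -/
noncomputable def psiY (hE : SelfSim E) (hρ : IsRH ψ E ρ) : Ya d F ρ →* Wr X (Ya d F ρ) :=
  lft d F ρ ((wmap (jl d F ρ)).comp ψ) (psi2 d F ρ) (psi_agree hE hρ)

theorem psiY_jl (hE : SelfSim E) (hρ : IsRH ψ E ρ) (q : Q) :
    psiY (F := F) hE hρ (jl d F ρ q) = wmap (jl d F ρ) (ψ q) := lft_jl _ _ _ _ _ _ _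

theorem psiY_jr (hE : SelfSim E) (hρ : IsRH ψ E ρ) (b : BB d E) :
    psiY (F := F) hE hρ (jr d F ρ b) = psi2 d F ρ b := lft_jr _ _ _ _ _ _ _

/-- the amalgam is in the class -/
theorem C_Ya {C : ∀ (G : Type) [Group G], Prop} (hC : ClosedE C) {P : Type} [Group P] (hP : C P)
    (hF : BB d F ≤ E) (hFE : F ≤ E)
    (u : Q →* P) (hu : Function.Injective u) (v : BB d E →* P) (hv : Function.Injective v)
    (huv : ∀ (b : T X) (h1 : b ∈ E) (h2 : b ∈ BB d E), b ∈ BB d F →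
      u (ρ ⟨b, h1⟩) = v ⟨b, h2⟩) : C (Ya d F ρ) := by
  let w : Ya d F ρ →* P := lft d F ρ u v huv
  have hwl : ∀ q, w (jl d F ρ q) = u q := lft_jl d F ρ u v huv
  have hwr : ∀ b, w (jr d F ρ b) = v b := lft_jr d F ρ u v huv
  have hjl : Function.Injective (jl d F ρ) := by
    intro a b h
    apply hu
    rw [← hwl, h, hwl]
  have hjr : Function.Injective (jr d F ρ) := by
    intro a b h
    apply hv
    rw [← hwr, h, hwr]
  let iF : BB d F →* Ya d F ρ := (jr d F ρ).comp (Subgroup.inclusion (bb_mono hFE))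
  have hiF : ∀ b : BB d F, iF b = jl d F ρ (ρ ⟨b.1, hF b.2⟩) := fun b =>
    (jl_eq_jr d F ρ b.2 _ _).symm
  refine Pool.Agent.Y417.FJ.t_am (Pool.Agent.Y961.FJ.t_perm Pool.Agent.Y529.FJ.t_ext) C hC
    (Ya d F ρ) P (jl d F ρ).range (jr d F ρ).range iF.range
    { le_left := ?_, le_right := ?_, gen := ya_gen d F ρ, univ := ?_ } w ?_ ?_ hP
  · rintro _ ⟨b, rfl⟩
    rw [hiF]
    exact ⟨_, rfl⟩
  · rintro _ ⟨b, rfl⟩
    exact ⟨_, rfl⟩
  · intro H _ f g hfg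
    refine ⟨lft d F ρ (f.comp (jl d F ρ).rangeRestrict) (g.comp (jr d F ρ).rangeRestrict) ?_,
      ?_, ?_⟩
    · intro b h1 h2 hb
      have h3 := hfg (iF ⟨b, hb⟩) ⟨_, rfl⟩
      refine Eq.trans ?_ (h3.trans ?_)
      · change f _ = f _
        congr 1
        exact Subtype.ext (hiF ⟨b, hb⟩).symm
      · rfl
    · rintro ⟨_, q, rfl⟩
      exact lft_jl d F ρ _ _ _ q
    · rintro ⟨_, b, rfl⟩
      exact lft_jr d F ρ _ _ _ b
  · rintro _ ⟨q, rfl⟩ h
    rw [hwl] at h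
    rw [hu (h.trans (map_one u).symm), map_one]
  · rintro _ ⟨b, rfl⟩ h
    rw [hwr] at h
    rw [hv (h.trans (map_one v).symm), map_one]

/-- **amalgams of groups with a recursion** -/
theorem amal [Finite X] {C : ∀ (G : Type) [Group G], Prop} (hC : ClosedE C) {P : Type} [Group P]
    (hP : C P) (hψ : Function.Injective ψ) (hE : SelfSim E) (hρ : IsRH ψ E ρ)
    (hF : BB d F ≤ E) (hFE : F ≤ E)
    (u : Q →* P) (hu : Function.Injective u) (v : BB d E →* P) (hv : Function.Injective v)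
    (huv : ∀ (b : T X) (h1 : b ∈ E) (h2 : b ∈ BB d E), b ∈ BB d F →
      u (ρ ⟨b, h1⟩) = v ⟨b, h2⟩) :
    ∃ (Q' : Type) (_ : Group Q') (ψ' : Q' →* Wr X Q') (j : Q →* Q') (κ : BB d E →* Q'),
      C Q' ∧ Function.Injective ψ' ∧ Function.Injective j ∧ (∀ q, ψ' (j q) = wmap j (ψ q)) ∧
      IsRB d ψ' E (j.comp ρ) κ ∧
      ∀ (b : T X) (h1 : b ∈ E) (h2 : b ∈ BB d E), b ∈ BB d F → j (ρ ⟨b, h1⟩) = κ ⟨b, h2⟩ := by
  have hY := C_Ya hC hP hF hFE u hu v hv huv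
  obtain ⟨ψY, hψY⟩ : ∃ ψY, ψY = psiY (F := F) (d := d) hE hρ := ⟨_, rfl⟩
  have hl : ∀ q, ψY (jl d F ρ q) = wmap (jl d F ρ) (ψ q) := by
    rw [hψY]; exact psiY_jl hE hρ
  have hr : ∀ b, ψY (jr d F ρ b) = psi2 d F ρ b := by
    rw [hψY]; exact psiY_jr hE hρ
  have hjl : Function.Injective (jl d F ρ) := by
    intro a b h
    apply hu
    rw [← lft_jl d F ρ u v huv a, h, lft_jl d F ρ u v huv b]
  have hq := psiq_mk ψY
  refine ⟨Ya d F ρ ⧸ Kd ψY, inferInstance, psiq ψY, (QuotientGroup.mk' (Kd ψY)).comp (jl d F ρ),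
    (QuotientGroup.mk' (Kd ψY)).comp (jr d F ρ), ?_, psiq_inj ψY, ?_, ?_, ⟨?_, ?_, ?_⟩, ?_⟩
  · exact Pool.Agent.Y331.SS.t_lim Pool.Agent.Y812.SS.t_wr C hC.base X (Ya d F ρ) inferInstance ψY
      hY (Kd ψY) (fun γ => Iff.rfl)
  · rw [injective_iff_map_eq_one]
    intro q h
    have h1 : jl d F ρ q ∈ Kd ψY := (QuotientGroup.eq_one_iff _).1 h
    exact not_dies_map ψ hψ hjl hl h1 q rfl
  · intro q
    rw [MonoidHom.comp_apply, hq, hl]
    rfl
  · intro b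
    rw [MonoidHom.comp_apply, hq, hr]
    rfl
  · intro b h
    rw [MonoidHom.comp_apply, hq, hr, wmap_s, psi2_d]
    rfl
  · intro b x hx h
    rw [MonoidHom.comp_apply, hq, hr, wmap_s, psi2_ne _ hx]
    rfl
  · intro b h1 h2 hb
    rw [MonoidHom.comp_apply, MonoidHom.comp_apply, jl_eq_jr d F ρ hb h1 h2]

end amal

end Pool.Agent.K3h28.PA
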