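import Pool.Agent.K3h28.PA.Br

/-!
# Finite-state automorphisms of polynomial activity
-/

set_option autoImplicit false

open Classical

namespace Pool.Agent.K3h28.PA

open Pool.Agent.Y462.SS

variable {X : Type} {d : X}

/-- the section at a word -/
def sw : T X → List X → T X
  | g, [] => g
  | g, x :: v => sw (sec g x) v

theorem sw_nil (g : T X) : sw g [] = g := by rw [sw]
theorem sw_cons (g : T X) (x : X) (v : List X) : sw g (x :: v) = sw (sec g x) v := by rw [sw]

theorem sw_append (u v : List X) : ∀ g : T X, sw g (u ++ v) = sw (sw g u) v := by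
  induction u with
  | nil => intro g; rw [List.nil_append, sw_nil]
  | cons x u ih => intro g; rw [List.cons_append, sw_cons, sw_cons, ih]

theorem sw_one (v : List X) : sw (1 : T X) v = 1 := by
  induction v with
  | nil => rw [sw_nil]
  | cons x v ih => rw [sw_cons, sec_one, ih]

theorem app_sw (v w : List X) : ∀ g : T X, g.1 (v ++ w) = g.1 v ++ (sw g v).1 w := by
  induction v with
  | nil => intro g; rw [sw_nil, nil_eq, List.nil_append, List.nil_append]
  | cons x v ih =>
    intro g
    rw [List.cons_append, cons_eq, cons_eq, sw_cons, ih, List.cons_append]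

/-- the number of the words of length `n` at which the section of `g` is not trivial is bounded by a
polynomial in `n` -/
def PolyAct (g : T X) : Prop :=
  ∃ c k : ℕ, ∀ n, {v : List X | v.length = n ∧ sw g v ≠ 1}.ncard ≤ c * (n + 1) ^ k

theorem fin_act [Finite X] (g : T X) (n : ℕ) :
    {v : List X | v.length = n ∧ sw g v ≠ 1}.Finite :=
  (List.finite_length_eq X n).subset fun _ hv => hv.1

theorem pa_sw [Finite X] {g : T X} (h : PolyAct g) (u : List X) : PolyAct (sw g u) := by
  obtain ⟨c, k, h⟩ := h
  refine ⟨c * (u.length + 1) ^ k, k, fun n => ?_⟩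
  have h1 : {v : List X | v.length = n ∧ sw (sw g u) v ≠ 1}.ncard ≤
      {v : List X | v.length = u.length + n ∧ sw g v ≠ 1}.ncard := by
    refine Set.ncard_le_ncard_of_injOn (fun v => u ++ v) ?_ ?_ (fin_act g _)
    · rintro v ⟨hv, hv'⟩
      refine ⟨by rw [List.length_append, hv], ?_⟩
      rw [sw_append]; exact hv'
    · intro a _ b _ hab
      exact List.append_cancel_left hab
  refine h1.trans ((h _).trans ?_)
  rw [mul_assoc, ← mul_pow]
  refine Nat.mul_le_mul_left c (Nat.pow_le_pow_left ?_ k)
  nlinarith

theorem exp_gt (c L K : ℕ) : ∃ k : ℕ, c * (k * L + 1) ^ K < 2 ^ k := by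
  have h1 := tendsto_pow_const_div_const_pow_of_one_lt K (show (1 : ℝ) < 2 by norm_num)
  have h2 : (0 : ℝ) < 1 / (c * (L + 1) ^ K + 1) := by positivity
  have h3 := (h1.eventually (gt_mem_nhds h2)).and (Filter.eventually_ge_atTop 1)
  obtain ⟨k, hk, hk1⟩ := h3.exists
  refine ⟨k, ?_⟩
  have h4 : (0 : ℝ) < 2 ^ k := by positivity
  have h5 : (0 : ℝ) < c * (L + 1) ^ K + 1 := by positivity
  rw [div_lt_div_iff₀ h4 h5, one_mul] at hk
  have h6 : (k * L + 1 : ℝ) ≤ k * (L + 1) := by
    have : (1 : ℝ) ≤ k := by exact_mod_cast hk1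
    linarith
  have h7 : (k * L + 1 : ℝ) ^ K ≤ (k * (L + 1)) ^ K := pow_le_pow_left₀ (by positivity) h6 K
  have h8 : (c : ℝ) * (k * L + 1) ^ K < 2 ^ k := by
    rw [mul_pow] at h7
    have h9 : (0 : ℝ) ≤ k ^ K := by positivity
    have h10 : (c : ℝ) * (k * L + 1) ^ K ≤ c * (k ^ K * (L + 1) ^ K) :=
      mul_le_mul_of_nonneg_left h7 (by positivity)
    nlinarith
  exact_mod_cast h8

/-- products of two words -/
def cat (W1 W2 : List X) : List Bool → List X
  | [] => []
  | b :: l => (if b then W1 else W2) ++ cat W1 W2 l

theorem cat_length {W1 W2 : List X} {L : ℕ} (h1 : W1.length = L) (h2 : W2.length = L)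
    (l : List Bool) : (cat W1 W2 l).length = l.length * L := by
  induction l with
  | nil => rw [cat]; simp
  | cons b l ih =>
    rw [cat, List.length_append, ih, List.length_cons]
    have : (if b = true then W1 else W2).length = L := by split_ifs <;> assumption
    rw [this]; ring

theorem cat_inj {W1 W2 : List X} {L : ℕ} (h1 : W1.length = L) (h2 : W2.length = L)
    (hne : W1 ≠ W2) (l : List Bool) : ∀ l' : List Bool, l.length = l'.length →
    cat W1 W2 l = cat W1 W2 l' → l = l' := by
  induction l with
  | nil =>
    intro l' hl _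
    exact (List.length_eq_zero_iff.1 hl.symm).symm
  | cons b l ih =>
    intro l' hl h
    cases l' with
    | nil => simp at hl
    | cons b' l' =>
      rw [cat, cat] at h
      have h3 : (if b = true then W1 else W2).length = (if b' = true then W1 else W2).length := by
        have : ∀ b : Bool, (if b = true then W1 else W2).length = L := by
          intro b; split_ifs <;> assumption
        rw [this, this]
      obtain ⟨h4, h5⟩ := List.append_inj h h3
      have h6 : l = l' := ih l' (by simpa using hl) h5
      have h7 : b = b' := by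
        cases b <;> cases b' <;> simp at h4 ⊢
        · exact hne h4.symm
        · exact hne h4
      rw [h6, h7]

theorem sw_cat {g : T X} {W1 W2 : List X} (h1 : sw g W1 = g) (h2 : sw g W2 = g)
    (l : List Bool) : sw g (cat W1 W2 l) = g := by
  induction l with
  | nil => rw [cat, sw_nil]
  | cons b l ih =>
    rw [cat, sw_append]
    have : sw g (if b = true then W1 else W2) = g := by split_ifs <;> assumption
    rw [this, ih]

theorem not_pa [Finite X] {g : T X} (hg : g ≠ 1) {W1 W2 : List X} {L : ℕ} (h1 : W1.length = L)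
    (h2 : W2.length = L) (hne : W1 ≠ W2) (hs1 : sw g W1 = g) (hs2 : sw g W2 = g) : ¬ PolyAct g := by
  rintro ⟨c, K, h⟩
  obtain ⟨k, hk⟩ := exp_gt c L K
  let F : (Fin k → Bool) → List X := fun f => cat W1 W2 (List.ofFn f)
  have hF : Function.Injective F := by
    intro f f' hff
    exact List.ofFn_injective (cat_inj h1 h2 hne _ _ (by simp) hff)
  have h3 : Set.range F ⊆ {v : List X | v.length = k * L ∧ sw g v ≠ 1} := by
    rintro _ ⟨f, rfl⟩
    refine ⟨by rw [cat_length h1 h2, List.length_ofFn], ?_⟩
    rw [sw_cat hs1 hs2]; exact hg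
  have h4 := Set.ncard_le_ncard h3 (fin_act g _)
  have h5 : (Set.range F).ncard = 2 ^ k := by
    rw [← Set.image_univ, Set.ncard_image_of_injective _ hF, Set.ncard_univ]
    simp
  have h6 := h (k * L)
  omega

/-- powers of a word -/
def rp (w : List X) : ℕ → List X
  | 0 => []
  | n + 1 => w ++ rp w n

theorem rp_length (w : List X) (n : ℕ) : (rp w n).length = n * w.length := by
  induction n with
  | zero => rw [rp]; simp
  | succ n ih => rw [rp, List.length_append, ih]; ring

theorem sw_rp {g : T X} {w : List X} (h : sw g w = g) (n : ℕ) : sw g (rp w n) = g := by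
  induction n with
  | zero => rw [rp, sw_nil]
  | succ n ih => rw [rp, sw_append, h, ih]

/-- prefixes of a ray -/
def pre (ξ : ℕ → X) (n : ℕ) : List X := (List.range n).map ξ

theorem pre_length (ξ : ℕ → X) (n : ℕ) : (pre ξ n).length = n := by simp [pre]

theorem pre_succ (ξ : ℕ → X) (n : ℕ) : pre ξ (n + 1) = pre ξ n ++ [ξ n] := by
  simp [pre, List.range_succ]

theorem pre_get (ξ : ℕ → X) {n i : ℕ} (h : i < n) : (pre ξ n)[i]? = some (ξ i) := by
  simp [pre, h]

theorem al_pre (ξ : ℕ → X) (g : T X) (n : ℕ) : al ξ g n = sw g (pre ξ n) := by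
  induction n with
  | zero => simp [pre, al, sw_nil]
  | succ n ih => rw [al, ih, pre_succ, sw_append, sw_cons, sw_nil]

/-- a return word which leaves a ray of returns -/
theorem not_pa_of [Finite X] {g : T X} (hg : g ≠ 1) {w V : List X} {i : ℕ} {x y : X}
    (hw : sw g w = g) (hV : sw g V = g) (hwi : w[i]? = some x) (hVi : V[i]? = some y)
    (hxy : x ≠ y) : ¬ PolyAct g := by
  have hw0 : i < w.length := by
    by_contra h
    rw [List.getElem?_eq_none (by omega)] at hwi
    exact absurd hwi (by simp)
  have hV0 : i < V.length := by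
    by_contra h
    rw [List.getElem?_eq_none (by omega)] at hVi
    exact absurd hVi (by simp)
  obtain ⟨a, ha⟩ := Nat.exists_eq_succ_of_ne_zero (show w.length ≠ 0 by omega)
  obtain ⟨b, hb⟩ := Nat.exists_eq_succ_of_ne_zero (show V.length ≠ 0 by omega)
  refine not_pa (L := w.length * V.length) (W1 := rp w V.length) (W2 := rp V w.length) hg ?_ ?_ ?_
    (sw_rp hw _) (sw_rp hV _)
  · rw [rp_length, mul_comm]
  · rw [rp_length]
  · intro h
    have h1 : (rp w V.length)[i]? = some x := by
      rw [hb, rp, List.getElem?_append_left hw0, hwi]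
    have h2 : (rp V w.length)[i]? = some y := by
      rw [ha, rp, List.getElem?_append_left hV0, hVi]
    rw [h, h2] at h1
    exact hxy (Option.some.inj h1).symm

theorem sw_sec_sub (g : T X) (u : List X) : Set.range (sw (sw g u)) ⊆ Set.range (sw g) := by
  rintro _ ⟨v, rfl⟩
  exact ⟨u ++ v, sw_append u v g⟩

/-- **ranked automorphisms**: the smallest class of automorphisms which contains `1`, the automorphisms
whose sections at the letters are in the class, and the automorphisms whose sections at the words that
leave a given ray are in the class and take only finitely many values -/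
inductive Ranked : T X → Prop
  | one : Ranked 1
  | branch (g : T X) : (∀ x, Ranked (sec g x)) → Ranked g
  | ray (g : T X) (ξ : ℕ → X) : (∀ n x, x ≠ ξ n → Ranked (sec (al ξ g n) x)) →
      {s | ∃ n x, x ≠ ξ n ∧ s = sec (al ξ g n) x}.Finite → Ranked g

/-- **finite-state automorphisms of polynomial activity are ranked** -/
theorem pa_ranked [Finite X] (N : ℕ) : ∀ g : T X, (Set.range (sw g)).Finite →
    (Set.range (sw g)).ncard ≤ N → PolyAct g → Ranked g := by
  induction N with
  | zero =>
    intro g hf hN _
    have h1 : (Set.range (sw g)).ncard = 0 := by omega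
    rw [Set.ncard_eq_zero hf] at h1
    exact absurd h1 (Set.range_nonempty _).ne_empty
  | succ N ih =>
    intro g hf hN hp
    have hlt : ∀ u, g ∉ Set.range (sw (sw g u)) → Ranked (sw g u) := by
      intro u hu
      refine ih (sw g u) (hf.subset (sw_sec_sub g u)) ?_ (pa_sw hp u)
      have h1 : Set.range (sw (sw g u)) ⊂ Set.range (sw g) := by
        refine ⟨sw_sec_sub g u, fun h => hu (h ⟨[], sw_nil g⟩)⟩
      have h2 := Set.ncard_lt_ncard h1 hf
      omega
    by_cases hg : g = 1
    · rw [hg]; exact Ranked.one
    by_cases hV : ∃ V : List X, V ≠ [] ∧ sw g V = g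
    · obtain ⟨V, hV0, hV⟩ := hV
      have hp0 : 0 < V.length := List.length_pos_iff.2 hV0
      let ξ : ℕ → X := fun i => V[i % V.length]'(Nat.mod_lt _ hp0)
      -- powers of `V` are prefixes of the ray
      have hpre1 : pre ξ V.length = V := by
        apply List.ext_getElem
        · rw [pre_length]
        · intro i h1 h2
          simp [pre, ξ, Nat.mod_eq_of_lt h2]
      have hpreadd : ∀ i, pre ξ (V.length + i) = V ++ pre ξ i := by
        intro i
        induction i with
        | zero => rw [add_zero, hpre1]; simp [pre]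
        | succ i ih =>
          rw [← add_assoc, pre_succ, ih, pre_succ, List.append_assoc]
          congr 3
          simp [ξ]
      have hret : ∀ k, sw g (pre ξ (k * V.length)) = g := by
        intro k
        induction k with
        | zero => simp [pre, sw_nil]
        | succ k ih =>
          rw [Nat.succ_mul, add_comm, hpreadd, sw_append, hV, ih]
      have hoff : ∀ n x, x ≠ ξ n → Ranked (sec (al ξ g n) x) := by
        intro n x hx
        have h1 : sec (al ξ g n) x = sw g (pre ξ n ++ [x]) := by
          rw [sw_append, sw_cons, sw_nil, al_pre]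
        rw [h1]
        apply hlt
        rintro ⟨u, hu⟩
        rw [← sw_append] at hu
        refine not_pa_of (i := n) (x := x) (y := ξ n) hg hu (hret (n + 1)) ?_ (pre_get ξ ?_) hx hp
        · rw [List.append_assoc, List.getElem?_append_right (by rw [pre_length]), pre_length]
          simp
        · nlinarith
      refine Ranked.ray g ξ hoff (hf.subset ?_)
      rintro _ ⟨n, x, _, rfl⟩
      exact ⟨pre ξ n ++ [x], by rw [sw_append, sw_cons, sw_nil, al_pre]⟩
    · push Not at hV
      refine Ranked.branch g fun x => ?_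
      have h1 : sec g x = sw g [x] := by rw [sw_cons, sw_nil]
      rw [h1]
      apply hlt
      rintro ⟨u, hu⟩
      rw [← sw_append] at hu
      exact hV _ (by simp) hu

/-! ## bounded automorphisms are ranked -/

theorem dep_ranked (k : ℕ) : ∀ g : T X, IsDep k g → Ranked g := by
  induction k with
  | zero => intro g hg; rw [(isDep_zero g).1 hg]; exact Ranked.one
  | succ k ih => exact fun g hg => Ranked.branch g fun x => ih _ (hg x)

theorem bd_ranked [Finite X] (k : ℕ) (N : ℕ) : ∀ (R : Finset (ℕ → X)) (g : T X),
    R.card = N → Bd k R g → Ranked g := by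
  induction N using Nat.strong_induction_on with
  | _ N ih =>
    intro R g hR hg
    by_cases h1 : ∃ ρ ∈ R, ∃ ρ' ∈ R, ρ ≠ ρ'
    · obtain ⟨ρ, hρ, ρ', hρ', hne⟩ := h1
      obtain ⟨t, ht⟩ := Function.ne_iff.1 hne
      clear hne
      induction t generalizing R g ρ ρ' with
      | zero =>
        refine Ranked.branch g fun x => ?_
        refine ih (shR R x).card ?_ _ _ rfl (bd_sec hg x)
        rw [← hR]
        by_contra h2
        rw [not_lt] at h2
        have h3 := all_of_card_shR h2
        exact ht ((h3 ρ hρ).trans (h3 ρ' hρ').symm)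
      | succ t iht =>
        refine Ranked.branch g fun x => ?_
        by_cases h2 : (shR R x).card < R.card
        · exact ih (shR R x).card (hR ▸ h2) _ _ rfl (bd_sec hg x)
        · rw [not_lt] at h2
          have h3 := all_of_card_shR h2
          refine iht (shR R x) (sec g x) ?_ (bd_sec hg x) (sh ρ) ?_ (sh ρ') ?_ ht
          · rw [← hR]
            exact le_antisymm (card_shR_le R x) h2
          · exact Finset.mem_image.2 ⟨ρ, Finset.mem_filter.2 ⟨hρ, h3 ρ hρ⟩, rfl⟩
          · exact Finset.mem_image.2 ⟨ρ', Finset.mem_filter.2 ⟨hρ', h3 ρ' hρ'⟩, rfl⟩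
    · by_cases h2 : R = ∅
      · rw [h2] at hg
        exact dep_ranked k g (bd_empty hg)
      · obtain ⟨ρ, hρ⟩ := Finset.nonempty_iff_ne_empty.2 h2
        have h3 : R ⊆ {ρ} := by
          intro ρ' hρ'
          rw [Finset.mem_singleton]
          by_contra h4
          exact h1 ⟨ρ', hρ', ρ, hρ, h4⟩
        have h4 := bd_single (bd_mono h3 hg)
        refine Ranked.ray g ρ (fun n x hx => dep_ranked k _ (h4 n x hx)) ?_
        have := finite_Dk (X := X) k
        refine (Set.toFinite (Dk X k : Set (T X))).subset ?_
        rintro _ ⟨n, x, hx, rfl⟩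
        exact h4 n x hx

/-! ## ranked automorphisms are in the chain -/

theorem fin_mem {A : Set (T X)} (hA : A.Finite) (h : ∀ a ∈ A, ∃ n, a ∈ E d n) :
    ∃ m, A ⊆ E d m := by
  induction A, hA using Set.Finite.induction_on with
  | empty => exact ⟨0, Set.empty_subset _⟩
  | @insert a A _ _ ih =>
    obtain ⟨m, hm⟩ := ih fun b hb => h b (Set.mem_insert_of_mem _ hb)
    obtain ⟨n, hn⟩ := h a (Set.mem_insert _ _)
    refine ⟨max m n, ?_⟩
    intro b hb
    rcases hb with rfl | hb
    · exact E_mono d (le_max_right m n) hn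
    · exact E_mono d (le_max_left m n) (hm hb)

theorem ranked_mem [Finite X] {g : T X} (hg : Ranked g) : ∃ n, g ∈ E d n := by
  induction hg with
  | one => exact ⟨0, one_mem _⟩
  | branch g _ ih =>
    obtain ⟨m, hm⟩ := fin_mem (Set.finite_range (sec g)) (by
      rintro _ ⟨x, rfl⟩
      exact ih x)
    exact ⟨m + 1 + 1, branch (by omega) fun x => E_le_succ d m (hm ⟨x, rfl⟩)⟩
  | ray g ξ _ hA ih =>
    obtain ⟨m, hm⟩ := fin_mem hA (by
      rintro _ ⟨n, x, hx, rfl⟩
      exact ih n x hx)
    exact ⟨m + 2, directed ξ _ hA hm fun n x hx => ⟨n, x, hx, rfl⟩⟩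

end Pool.Agent.K3h28.PA
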