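import Pool.Agent.Y462.SS.Det

/-!
# Directed automorphisms over a group of tree automorphisms, and the chain of groups
-/

set_option autoImplicit false

open Classical

namespace Pool.Agent.K3h28.PA

open Pool.Agent.Y462.SS

variable {X : Type} (d : X)

/-- the sections along the ray `d d d ...` -/
def av (g : T X) (n : ℕ) : T X := al (fun _ => d) g n

theorem av_zero (g : T X) : av d g 0 = g := rfl

theorem av_succ (g : T X) (n : ℕ) : av d g (n + 1) = sec (av d g n) d := rfl

theorem av_sec (g : T X) (n : ℕ) : av d (sec g d) n = av d g (n + 1) :=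
  al_sh (fun _ => d) g n

/-- `g` fixes the ray `d d d ...` -/
def Fx (g : T X) : Prop := ∀ n, root (av d g n) d = d

theorem fx_sec {g : T X} (h : Fx d g) : Fx d (sec g d) := fun n => by
  rw [av_sec]; exact h (n + 1)

theorem av_mul {g h : T X} (hh : Fx d h) (n : ℕ) : av d (g * h) n = av d g n * av d h n := by
  induction n with
  | zero => rfl
  | succ n ih => rw [av_succ, ih, sec_mul, hh n]; rfl

theorem av_inv {g : T X} (hg : Fx d g) (n : ℕ) : av d g⁻¹ n = (av d g n)⁻¹ := by
  induction n with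
  | zero => rfl
  | succ n ih =>
    have h1 : (root (av d g n))⁻¹ d = d := by rw [Equiv.Perm.inv_eq_iff_eq, hg n]
    rw [av_succ, ih, sec_inv, h1]; rfl

theorem av_one (n : ℕ) : av d (1 : T X) n = 1 := by
  induction n with
  | zero => rfl
  | succ n ih => rw [av_succ, ih, sec_one]

theorem fx_mul {g h : T X} (hg : Fx d g) (hh : Fx d h) : Fx d (g * h) := fun n => by
  rw [av_mul d hh, root_mul, Equiv.Perm.mul_apply, hh n, hg n]

theorem fx_one : Fx d (1 : T X) := fun n => by rw [av_one, root_one]; rfl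

theorem fx_inv {g : T X} (hg : Fx d g) : Fx d g⁻¹ := fun n => by
  rw [av_inv d hg, root_inv, Equiv.Perm.inv_eq_iff_eq, hg n]

/-- the permutation of the letters and the sections at the letters different from `d` -/
noncomputable def dat (g : T X) : Wr X (T X) := ⟨fun x => if x = d then 1 else sec g x, root g⟩

theorem dat_mul {g h : T X} (hh : root h d = d) : dat d (g * h) = dat d g * dat d h := by
  apply Wr.ext
  · funext x
    change (if x = d then 1 else sec (g * h) x) =
      (if root h x = d then 1 else sec g (root h x)) * (if x = d then 1 else sec h x)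
    by_cases hx : x = d
    · rw [if_pos hx, if_pos hx, hx, if_pos hh, one_mul]
    · have h2 : root h x ≠ d := fun h3 => hx ((root h).injective (h3.trans hh.symm))
      rw [if_neg hx, if_neg hx, if_neg h2, sec_mul]
  · exact root_mul g h

theorem dat_one : dat d (1 : T X) = 1 := by
  apply Wr.ext
  · funext x
    change (if x = d then 1 else sec 1 x) = 1
    rw [sec_one, ite_self]
  · exact root_one

theorem dat_inv {g : T X} (hg : root g d = d) : dat d g⁻¹ = (dat d g)⁻¹ := by
  rw [eq_inv_iff_mul_eq_one, ← dat_mul d hg, inv_mul_cancel, dat_one]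

/-- the directed automorphisms along `d d d ...` with sections in `E` off the ray, which take only
finitely many values -/
noncomputable def BB (E : Subgroup (T X)) : Subgroup (T X) where
  carrier := {g | Fx d g ∧ (∀ n x, x ≠ d → sec (av d g n) x ∈ E) ∧
    (Set.range fun n => dat d (av d g n)).Finite}
  one_mem' := by
    refine ⟨fx_one d, fun n x _ => ?_, ?_⟩
    · rw [av_one, sec_one]; exact one_mem _
    · refine (Set.finite_singleton (1 : Wr X (T X))).subset ?_
      rintro _ ⟨n, rfl⟩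
      change dat d (av d 1 n) ∈ _
      rw [av_one, dat_one]
      rfl
  mul_mem' := by
    rintro g h ⟨h1, h2, h3⟩ ⟨k1, k2, k3⟩
    refine ⟨fx_mul d h1 k1, fun n x hx => ?_, ?_⟩
    · rw [av_mul d k1, sec_mul]
      refine mul_mem (h2 n _ ?_) (k2 n x hx)
      intro h4
      exact hx ((root (av d h n)).injective (h4.trans (k1 n).symm))
    · refine (Set.Finite.image2 (· * ·) h3 k3).subset ?_
      rintro _ ⟨n, rfl⟩
      refine ⟨_, ⟨n, rfl⟩, _, ⟨n, rfl⟩, ?_⟩
      change dat d (av d g n) * dat d (av d h n) = dat d (av d (g * h) n)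
      rw [av_mul d k1, dat_mul d (k1 n)]
  inv_mem' := by
    rintro g ⟨h1, h2, h3⟩
    refine ⟨fx_inv d h1, fun n x hx => ?_, ?_⟩
    · rw [av_inv d h1, sec_inv]
      refine inv_mem (h2 n _ ?_)
      intro h
      rw [Equiv.Perm.inv_eq_iff_eq, h1 n] at h
      exact hx h
    · refine (Set.Finite.image (·⁻¹) h3).subset ?_
      rintro _ ⟨n, rfl⟩
      refine ⟨_, ⟨n, rfl⟩, ?_⟩
      change (dat d (av d g n))⁻¹ = dat d (av d g⁻¹ n)
      rw [av_inv d h1, dat_inv d (h1 n)]

variable {d}

theorem bb_fx {E : Subgroup (T X)} {b : T X} (h : b ∈ BB d E) : Fx d b := h.1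

theorem bb_root {E : Subgroup (T X)} {b : T X} (h : b ∈ BB d E) : root b d = d := h.1 0

theorem bb_off {E : Subgroup (T X)} {b : T X} (h : b ∈ BB d E) {x : X} (hx : x ≠ d) :
    sec b x ∈ E := h.2.1 0 x hx

theorem bb_sec {E : Subgroup (T X)} {b : T X} (h : b ∈ BB d E) : sec b d ∈ BB d E := by
  refine ⟨fx_sec d h.1, fun n x hx => ?_, ?_⟩
  · rw [av_sec]; exact h.2.1 (n + 1) x hx
  · refine h.2.2.subset ?_
    rintro _ ⟨n, rfl⟩
    refine ⟨n + 1, ?_⟩
    change dat d (av d b (n + 1)) = dat d (av d (sec b d) n)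
    rw [av_sec]

theorem bb_ne {E : Subgroup (T X)} {b : T X} (h : b ∈ BB d E) {x : X} (hx : x ≠ d) :
    root b x ≠ d := fun h1 => hx ((root b).injective (h1.trans (bb_root h).symm))

theorem bb_mono {E F : Subgroup (T X)} (h : F ≤ E) : BB d F ≤ BB d E :=
  fun _ hb => ⟨hb.1, fun n x hx => h (hb.2.1 n x hx), hb.2.2⟩

/-- self-similar groups -/
def SelfSim (E : Subgroup (T X)) : Prop := ∀ g ∈ E, ∀ x, sec g x ∈ E

theorem sup_sec {A B L : Subgroup (T X)} (hA : ∀ g ∈ A, ∀ x, sec g x ∈ L)
    (hB : ∀ g ∈ B, ∀ x, sec g x ∈ L) : ∀ g ∈ A ⊔ B, ∀ x, sec g x ∈ L := by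
  intro g hg
  rw [Subgroup.sup_eq_closure] at hg
  induction hg using Subgroup.closure_induction with
  | mem g hg =>
    rcases hg with hg | hg
    · exact hA g hg
    · exact hB g hg
  | one => intro x; rw [sec_one]; exact one_mem _
  | mul a b _ _ ha hb => intro x; rw [sec_mul]; exact mul_mem (ha _) (hb _)
  | inv a _ ha => intro x; rw [sec_inv]; exact inv_mem (ha _)

theorem selfSim_sup {E : Subgroup (T X)} (hE : SelfSim E) : SelfSim (E ⊔ BB d E) := by
  refine sup_sec (fun g hg x => Subgroup.mem_sup_left (hE g hg x)) (fun g hg x => ?_)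
  by_cases hx : x = d
  · rw [hx]; exact Subgroup.mem_sup_right (bb_sec hg)
  · exact Subgroup.mem_sup_left (bb_off hg hx)

variable (d)

/-- the chain of groups -/
noncomputable def E : ℕ → Subgroup (T X)
  | 0 => ⊥
  | 1 => M d 0
  | n + 2 => E (n + 1) ⊔ BB d (E (n + 1))

theorem E_zero : E d 0 = ⊥ := by rw [E]
theorem E_one : E d 1 = M d 0 := by rw [E]
theorem E_succ (n : ℕ) : E d (n + 2) = E d (n + 1) ⊔ BB d (E d (n + 1)) := by rw [E]

theorem selfSim_E (n : ℕ) : SelfSim (E d n) := by
  induction n with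
  | zero =>
    intro g hg x
    rw [E_zero, Subgroup.mem_bot] at *
    rw [hg, sec_one]
  | succ n ih =>
    cases n with
    | zero =>
      intro g hg x
      rw [E_one] at *
      exact sec_mem_M d 0 hg x
    | succ n => rw [E_succ]; exact selfSim_sup ih

theorem E_le_succ (n : ℕ) : E d n ≤ E d (n + 1) := by
  cases n with
  | zero => rw [E_zero]; exact bot_le
  | succ n => rw [E_succ]; exact le_sup_left

theorem E_mono : Monotone (E d) := monotone_nat_of_le_succ (E_le_succ d)

theorem BB_le_succ (n : ℕ) : BB d (E d n) ≤ E d (n + 1) := by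
  cases n with
  | zero =>
    intro b hb
    rw [E_one]
    refine dir_mem_M d 0 (ξ := fun _ => d) ?_
    intro n x hx
    have h1 := hb.2.1 n x hx
    rw [E_zero, Subgroup.mem_bot] at h1
    exact h1
  | succ n => rw [E_succ]; exact le_sup_right

/-! ## all elements are good -/

/-- the sections of `a` along `d d d ...` are eventually directed, or `a` moves the ray -/
inductive Good (F : Subgroup (T X)) : T X → Prop
  | bb (a : T X) : a ∈ BB d F → Good F a
  | mv (a : T X) : root a d ≠ d → Good F a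
  | st (a : T X) : Good F (sec a d) → Good F a

variable {d}

theorem good_mono {F E : Subgroup (T X)} (h : F ≤ E) {a : T X} (ha : Good d F a) : Good d E a := by
  induction ha with
  | bb a ha => exact Good.bb a (bb_mono h ha)
  | mv a ha => exact Good.mv a ha
  | st a _ ih => exact Good.st a ih

theorem good_mul {F E : Subgroup (T X)} (h : F ≤ E) {a : T X} (ha : Good d F a) :
    ∀ b ∈ BB d E, Good d E (a * b) := by
  induction ha with
  | bb a ha => exact fun b hb => Good.bb _ (mul_mem (bb_mono h ha) hb)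
  | mv a ha =>
    intro b hb
    refine Good.mv _ ?_
    rw [root_mul, Equiv.Perm.mul_apply, bb_root hb]
    exact ha
  | st a _ ih =>
    intro b hb
    refine Good.st _ ?_
    rw [sec_mul, bb_root hb]
    exact ih _ (bb_sec hb)

theorem good_three {F E : Subgroup (T X)} (h : F ≤ E) (hE : SelfSim E) (hg : ∀ a ∈ E, Good d F a)
    {c : T X} (hc : Good d F c) : c ∈ E → ∀ a ∈ E, ∀ b ∈ BB d E, Good d E (a * b * c) := by
  have hmv : ∀ c ∈ E, root c d ≠ d → ∀ a ∈ E, ∀ b ∈ BB d E, Good d E (a * b * c) := by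
    intro c hc hcd a ha b hb
    refine Good.st _ ?_
    refine good_mono h (hg _ ?_)
    rw [sec_mul, sec_mul]
    exact mul_mem (mul_mem (hE a ha _) (bb_off hb hcd)) (hE c hc _)
  induction hc with
  | bb c hc =>
    intro _ a ha b hb
    rw [mul_assoc]
    exact good_mul h (hg a ha) _ (mul_mem hb (bb_mono h hc))
  | mv c hc => exact fun hcE => hmv c hcE hc
  | st c _ ih =>
    intro hcE a ha b hb
    by_cases hcd : root c d = d
    · refine Good.st _ ?_
      rw [sec_mul, hcd, sec_mul, bb_root hb]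
      exact ih (hE c hcE _) _ (hE a ha _) _ (bb_sec hb)
    · exact hmv c hcE hcd a ha b hb

/-- the elements of the first group are good -/
theorem good_dl (n : ℕ) (ξ : ℕ → X) (β : ℕ → B1 d 0) (η : ℕ → X) (h : ξ n ≠ d ∨ η n ≠ d) :
    Good d ⊥ (tau (psi d 0) (dl d 0 ξ β η)) := by
  have hξ : ∀ (ξ : ℕ → X) (β : ℕ → B1 d 0) (η : ℕ → X), ξ 0 ≠ d →
      Good d ⊥ (tau (psi d 0) (dl d 0 ξ β η)) := by
    intro ξ β η h0
    refine Good.st _ ?_
    rw [sec_tau, psi_dl_s_off _ _ _ _ _ _ h0.symm, tau_iA]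
    have h1 : (((β 0).1.s (Equiv.swap d (ξ 0) d)).1 : T X) = 1 :=
      ((β 0).1.s (Equiv.swap d (ξ 0) d)).2
    rw [h1]
    exact Good.bb _ (one_mem _)
  have hη : ∀ (ξ : ℕ → X) (β : ℕ → B1 d 0) (η : ℕ → X), ξ 0 = d → η 0 ≠ d →
      Good d ⊥ (tau (psi d 0) (dl d 0 ξ β η)) := by
    intro ξ β η h0 h1
    refine Good.mv _ ?_
    rw [root_tau, psi_dl_p, h0, Equiv.swap_self]
    change Equiv.swap d (η 0) ((β 0).1.p d) ≠ d
    rw [(β 0).2.1, Equiv.swap_apply_left]
    exact h1
  induction n generalizing ξ β η with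
  | zero =>
    by_cases h0 : ξ 0 = d
    · rcases h with h | h
      · exact absurd h0 h
      · exact hη ξ β η h0 h
    · exact hξ ξ β η h0
  | succ n ih =>
    by_cases h0 : ξ 0 = d
    · refine Good.st _ ?_
      have h1 := psi_dl_s_ray d 0 ξ β η
      rw [h0] at h1
      rw [sec_tau, h1]
      exact ih _ _ _ h
    · exact hξ ξ β η h0

theorem av_iB (n : ℕ) (β : ℕ → B1 d 0) : ∃ γ : ℕ → B1 d 0,
    av d (tau (psi d 0) (iB d 0 β)) n = tau (psi d 0) (iB d 0 γ) := by
  induction n with
  | zero => exact ⟨β, rfl⟩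
  | succ n ih =>
    obtain ⟨γ, h⟩ := ih
    refine ⟨sh γ, ?_⟩
    rw [av_succ, h, sec_tau, psi_iB]
    change tau (psi d 0) (if d = d then _ else _) = _
    rw [if_pos rfl]

theorem finite_wr [Finite X] : Finite (Equiv.Perm X) := inferInstance

theorem iB_mem [Finite X] (β : ℕ → B1 d 0) : tau (psi d 0) (iB d 0 β) ∈ BB d (⊥ : Subgroup (T X)) := by
  have h1 : ∀ γ : ℕ → B1 d 0, ∀ x, x ≠ d → sec (tau (psi d 0) (iB d 0 γ)) x = 1 := by
    intro γ x hx
    rw [sec_tau, psi_iB]
    change tau (psi d 0) (if x = d then _ else iA d 0 ((γ 0).1.s x)) = _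
    rw [if_neg hx, tau_iA]
    exact ((γ 0).1.s x).2
  refine ⟨fun n => ?_, fun n x hx => ?_, ?_⟩
  · obtain ⟨γ, h⟩ := av_iB n β
    rw [h, root_tau, psi_iB]
    exact (γ 0).2.1
  · obtain ⟨γ, h⟩ := av_iB n β
    rw [h, h1 γ x hx]
    exact one_mem _
  · refine (Set.finite_range (fun p : Equiv.Perm X => (⟨fun _ => 1, p⟩ : Wr X (T X)))).subset ?_
    rintro _ ⟨n, rfl⟩
    obtain ⟨γ, h⟩ := av_iB n β
    refine ⟨root (av d (tau (psi d 0) (iB d 0 β)) n), ?_⟩
    apply Wr.ext
    · funext x
      change 1 = if x = d then 1 else sec (av d (tau (psi d 0) (iB d 0 β)) n) x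
      by_cases hx : x = d
      · rw [if_pos hx]
      · rw [if_neg hx, h, h1 γ x hx]
    · rfl

theorem good_zero [Finite X] : ∀ h ∈ E d 1, Good d (E d 0) h := by
  intro h hh
  rw [E_one] at hh
  rw [E_zero]
  obtain ⟨γ, rfl⟩ := hh
  have h0 := en_all d 0 γ
  induction h0 with
  | nucA a =>
    rw [tau_iA]
    have h1 : (a.1 : T X) = 1 := a.2
    rw [h1]
    exact Good.bb _ (one_mem _)
  | nucD ξ β η =>
    by_cases h : ∃ n, ξ n ≠ d ∨ η n ≠ d
    · obtain ⟨n, hn⟩ := h
      exact good_dl n ξ β η hn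
    · push Not at h
      have h1 : ξ = fun _ => d := funext fun n => (h n).1
      have h2 : η = fun _ => d := funext fun n => (h n).2
      have h3 : dl d 0 ξ β η = iB d 0 β := by
        unfold dl
        rw [h1, h2, cc_base]
        group
      rw [h3]
      exact Good.bb _ (iB_mem β)
  | step γ _ ih =>
    refine Good.st _ ?_
    rw [sec_tau]
    exact ih d

end Pool.Agent.K3h28.PA
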