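import Pool.Agent.K3h28.PA.Bb

/-!
# Branching and directed automorphisms along any ray
-/

set_option autoImplicit false

open Classical

namespace Pool.Agent.K3h28.PA

open Pool.Agent.Y462.SS

variable {X : Type} {d : X}

/-! ## automorphisms with given sections -/

/-- the recursion of the wreath product -/
def wps (X : Type) : Wr X (T X) →* Wr X (Wr X (T X)) where
  toFun w := ⟨fun x => toWr X (w.s x), w.p⟩
  map_one' := by
    apply Wr.ext
    · funext x
      exact map_one _
    · rfl
  map_mul' a b := by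
    apply Wr.ext
    · funext x
      exact map_mul (toWr X) _ _
    · rfl

/-- the automorphism with the given sections and permutation of the letters -/
def mkT (X : Type) : Wr X (T X) →* T X := tau (wps X)

theorem act_toWr (w : List X) : ∀ g : T X, act (wps X) (toWr X g) w = g.1 w := by
  induction w with
  | nil => intro g; rw [act_nil, nil_eq]
  | cons x w ih =>
    intro g
    rw [act_cons, cons_eq]
    change root g x :: act (wps X) (toWr X (sec g x)) w = _
    rw [ih]

theorem mkT_toWr (g : T X) : mkT X (toWr X g) = g := by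
  apply Subtype.ext
  apply Equiv.ext
  exact fun w => act_toWr w g

theorem root_mkT (w : Wr X (T X)) : root (mkT X w) = w.p := root_tau _ w

theorem sec_mkT (w : Wr X (T X)) (x : X) : sec (mkT X w) x = w.s x :=
  (sec_tau (wps X) w x).trans (mkT_toWr (w.s x))

/-! ## branching -/

theorem al_const_one (ξ : ℕ → X) (n : ℕ) : al ξ (1 : T X) n = 1 := by
  induction n with
  | zero => rfl
  | succ n ih => rw [al, ih, sec_one]

theorem rooted_mem (p : Equiv.Perm X) : mkT X ⟨fun _ => 1, p⟩ ∈ E d 1 := by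
  rw [E_one]
  refine dir_mem_M d 0 (ξ := fun _ => d) ?_
  intro n x _
  have h1 : sec (al (fun _ => d) (mkT X ⟨fun _ => 1, p⟩) n) x = 1 := by
    cases n with
    | zero => exact sec_mkT _ x
    | succ n =>
      rw [← al_sh]
      have h2 : sec (mkT X ⟨fun _ => 1, p⟩) d = 1 := sec_mkT _ d
      change sec (al _ (sec (mkT X ⟨fun _ => 1, p⟩) d) n) x = 1
      rw [h2, al_const_one, sec_one]
  exact h1

theorem single_bb {L : Subgroup (T X)} {w : Wr X (T X)} (hp : w.p = 1) (hd : w.s d = 1)
    (hw : ∀ x, w.s x ∈ L) : mkT X w ∈ BB d L := by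
  have h1 : ∀ n, av d (mkT X w) (n + 1) = 1 := by
    intro n
    rw [← av_sec, sec_mkT, hd, av_one]
  refine ⟨fun n => ?_, fun n x _ => ?_, ?_⟩
  · cases n with
    | zero => rw [av_zero, root_mkT, hp]; rfl
    | succ n => rw [h1, root_one]; rfl
  · cases n with
    | zero => rw [av_zero, sec_mkT]; exact hw x
    | succ n => rw [h1, sec_one]; exact one_mem _
  · refine ((Set.finite_singleton (dat d (1 : T X))).insert (dat d (mkT X w))).subset ?_
    rintro _ ⟨n, rfl⟩
    cases n with
    | zero => exact Or.inl rfl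
    | succ n =>
      refine Or.inr ?_
      change dat d (av d (mkT X w) (n + 1)) = _
      rw [h1]

theorem subsing (h : ∀ y : X, y = d) (w : List X) : ∀ g : T X, g.1 w = w := by
  induction w with
  | nil => intro g; exact nil_eq g
  | cons x w ih =>
    intro g
    rw [cons_eq, ih, h (root g x), h x]

/-- **branching** -/
theorem branch {m : ℕ} (hm : 1 ≤ m) {g : T X} (hg : ∀ x, sec g x ∈ E d m) : g ∈ E d (m + 1) := by
  by_cases hX : ∀ y : X, y = d
  · have : g = 1 := by
      apply Subtype.ext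
      apply Equiv.ext
      exact fun w => subsing hX w g
    rw [this]
    exact one_mem _
  push Not at hX
  obtain ⟨y, hy⟩ := hX
  have hroot : ∀ p : Equiv.Perm X, mkT X ⟨fun _ => 1, p⟩ ∈ E d (m + 1) :=
    fun p => E_mono d (show 1 ≤ m + 1 by omega) (rooted_mem p)
  have hbb : ∀ w : Wr X (T X), w.p = 1 → w.s d = 1 → (∀ x, w.s x ∈ E d m) →
      mkT X w ∈ E d (m + 1) :=
    fun w h1 h2 h3 => BB_le_succ d m (single_bb h1 h2 h3)
  -- the section at `d`
  have h1 : mkT X ⟨fun x => if x = d then sec g d else 1, 1⟩ ∈ E d (m + 1) := by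
    have h2 : (⟨fun x => if x = d then sec g d else 1, 1⟩ : Wr X (T X)) =
        ⟨fun _ => 1, Equiv.swap d y⟩ * ⟨fun x => if x = y then sec g d else 1, 1⟩ *
          ⟨fun _ => 1, Equiv.swap d y⟩ := by
      apply Wr.ext
      · funext x
        change (if x = d then sec g d else 1) =
          1 * (if Equiv.swap d y x = y then sec g d else 1) * 1
        rw [one_mul, mul_one]
        by_cases hx : x = d
        · rw [if_pos hx, if_pos (by rw [hx, Equiv.swap_apply_left])]
        · rw [if_neg hx, if_neg]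
          intro h3
          rw [Equiv.swap_apply_eq_iff, Equiv.swap_apply_right] at h3
          exact hx h3
      · change 1 = Equiv.swap d y * 1 * Equiv.swap d y
        rw [mul_one, Equiv.swap_mul_self]
    rw [h2, map_mul, map_mul]
    refine mul_mem (mul_mem (hroot _) (hbb _ rfl (if_neg hy.symm) fun x => ?_)) (hroot _)
    change (if x = y then sec g d else 1) ∈ _
    by_cases hx : x = y
    · rw [if_pos hx]; exact hg d
    · rw [if_neg hx]; exact one_mem _
  have h2 : mkT X ⟨fun x => if x = d then 1 else sec g x, 1⟩ ∈ E d (m + 1) := by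
    refine hbb _ rfl (if_pos rfl) fun x => ?_
    change (if x = d then 1 else sec g x) ∈ _
    by_cases hx : x = d
    · rw [if_pos hx]; exact one_mem _
    · rw [if_neg hx]; exact hg x
  have h3 : toWr X g = ⟨fun _ => 1, root g⟩ * (⟨fun x => if x = d then sec g d else 1, 1⟩ *
      ⟨fun x => if x = d then 1 else sec g x, 1⟩) := by
    apply Wr.ext
    · funext x
      change sec g x = 1 * ((if x = d then sec g d else 1) * (if x = d then 1 else sec g x))
      by_cases hx : x = d
      · rw [if_pos hx, if_pos hx, one_mul, mul_one, hx]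
      · rw [if_neg hx, if_neg hx, one_mul, one_mul]
    · change root g = root g * (1 * 1)
      rw [mul_one, mul_one]
  rw [← mkT_toWr g, h3, map_mul, map_mul]
  exact mul_mem (hroot _) (mul_mem h1 h2)

/-! ## directed automorphisms -/

/-- the transport of the ray `d d d ...` to the ray `ξ` -/
noncomputable def tc (d : X) (ξ : ℕ → X) : T X := tau (psi d 0) (cc d 0 ξ)

theorem tc_mem (ξ : ℕ → X) : tc d ξ ∈ E d 1 := by
  rw [E_one]; exact ⟨_, rfl⟩

theorem root_tc (ξ : ℕ → X) : root (tc d ξ) = Equiv.swap d (ξ 0) := by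
  rw [tc, root_tau, psi_cc]; rfl

theorem sec_tc_d (ξ : ℕ → X) : sec (tc d ξ) d = tc d (sh ξ) := by
  rw [tc, sec_tau, psi_cc]
  change tau (psi d 0) (if d = d then cc d 0 (sh ξ) else 1) = _
  rw [if_pos rfl]; rfl

theorem sec_tc_ne (ξ : ℕ → X) {x : X} (hx : x ≠ d) : sec (tc d ξ) x = 1 := by
  rw [tc, sec_tau, psi_cc]
  change tau (psi d 0) (if x = d then cc d 0 (sh ξ) else 1) = _
  rw [if_neg hx, map_one]

/-- the directed automorphism transported to the ray `d d d ...` -/
noncomputable def trn (d : X) (g : T X) (ξ η : ℕ → X) : T X := (tc d η)⁻¹ * g * tc d ξ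

theorem root_trn (g : T X) (ξ η : ℕ → X) (x : X) :
    root (trn d g ξ η) x = Equiv.swap d (η 0) (root g (Equiv.swap d (ξ 0) x)) := by
  rw [trn, root_mul, root_mul, root_inv, root_tc, root_tc, Equiv.swap_inv]
  rfl

theorem sec_tc_inv (η : ℕ → X) (y : X) :
    sec (tc d η)⁻¹ y = (sec (tc d η) (Equiv.swap d (η 0) y))⁻¹ := by
  rw [sec_inv, root_tc, Equiv.swap_inv]

theorem sec_trn_d (g : T X) (ξ η : ℕ → X) (h : root g (ξ 0) = η 0) :
    sec (trn d g ξ η) d = trn d (sec g (ξ 0)) (sh ξ) (sh η) := by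
  rw [trn, sec_mul, sec_mul, root_tc, Equiv.swap_apply_left, h, sec_tc_inv,
    Equiv.swap_apply_right, sec_tc_d, sec_tc_d]
  rfl

theorem sec_trn_ne (g : T X) (ξ η : ℕ → X) (h : root g (ξ 0) = η 0) {x : X} (hx : x ≠ d) :
    sec (trn d g ξ η) x = sec g (Equiv.swap d (ξ 0) x) := by
  have h1 : Equiv.swap d (ξ 0) x ≠ ξ 0 := by
    intro h2
    rw [Equiv.swap_apply_eq_iff, Equiv.swap_apply_right] at h2
    exact hx h2
  have h2 : root g (Equiv.swap d (ξ 0) x) ≠ η 0 := by
    intro h3
    rw [← h] at h3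
    exact h1 ((root g).injective h3)
  have h3 : Equiv.swap d (η 0) (root g (Equiv.swap d (ξ 0) x)) ≠ d := by
    intro h4
    rw [Equiv.swap_apply_eq_iff, Equiv.swap_apply_left] at h4
    exact h2 h4
  rw [trn, sec_mul, sec_mul, root_tc, sec_tc_inv, sec_tc_ne _ hx, sec_tc_ne _ h3, inv_one,
    one_mul, mul_one]

theorem root_trn_d (g : T X) (ξ η : ℕ → X) (h : root g (ξ 0) = η 0) :
    root (trn d g ξ η) d = d := by
  rw [root_trn, Equiv.swap_apply_left, h, Equiv.swap_apply_right]

theorem av_trn (n : ℕ) : ∀ (g : T X) (ξ η : ℕ → X), (∀ i, root (al ξ g i) (ξ i) = η i) →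
    ∃ ξ' η' : ℕ → X, av d (trn d g ξ η) n = trn d (al ξ g n) ξ' η' ∧ ξ' 0 = ξ n ∧ η' 0 = η n := by
  induction n with
  | zero => intro g ξ η _; exact ⟨ξ, η, rfl, rfl, rfl⟩
  | succ n ih =>
    intro g ξ η h
    rw [← av_sec, sec_trn_d g ξ η (h 0)]
    obtain ⟨ξ', η', h1, h2, h3⟩ := ih (sec g (ξ 0)) (sh ξ) (sh η) (fun i => by
      rw [al_sh]; exact h (i + 1))
    refine ⟨ξ', η', ?_, h2, h3⟩
    rw [h1, al_sh]

/-- **directed automorphisms along any ray** -/
theorem directed [Finite X] {m : ℕ} {g : T X} (ξ : ℕ → X) (A : Set (T X))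
    (hA : A.Finite) (hAm : A ⊆ E d m) (h : ∀ n x, x ≠ ξ n → sec (al ξ g n) x ∈ A) :
    g ∈ E d (m + 2) := by
  let η : ℕ → X := fun n => root (al ξ g n) (ξ n)
  have hb : trn d g ξ η ∈ BB d (E d m) := by
    have hoff : ∀ n x, x ≠ d → sec (av d (trn d g ξ η) n) x ∈ A := by
      intro n x hx
      obtain ⟨ξ', η', h1, h2, h3⟩ := av_trn (d := d) n g ξ η (fun _ => rfl)
      rw [h1, sec_trn_ne _ ξ' η' (by rw [h2, h3]) hx]
      apply h
      rw [← h2]
      intro h4
      rw [Equiv.swap_apply_eq_iff, Equiv.swap_apply_right] at h4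
      exact hx h4
    refine ⟨fun n => ?_, fun n x hx => hAm (hoff n x hx), ?_⟩
    · obtain ⟨ξ', η', h1, h2, h3⟩ := av_trn (d := d) n g ξ η (fun _ => rfl)
      rw [h1]
      exact root_trn_d _ _ _ (by rw [h2, h3])
    · have h1 : (Set.univ.pi fun _ : X => insert (1 : T X) A).Finite :=
        Set.Finite.pi fun _ => hA.insert 1
      refine (Set.Finite.image2 (fun s (p : Equiv.Perm X) => (⟨s, p⟩ : Wr X (T X))) h1
        Set.finite_univ).subset ?_
      rintro _ ⟨n, rfl⟩
      refine ⟨(dat d (av d (trn d g ξ η) n)).s, ?_, _, trivial, rfl⟩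
      intro x _
      change (if x = d then 1 else sec (av d (trn d g ξ η) n) x) ∈ _
      by_cases hx : x = d
      · rw [if_pos hx]; exact Or.inl rfl
      · rw [if_neg hx]; exact Or.inr (hoff n x hx)
  have h1 : g = tc d η * trn d g ξ η * (tc d ξ)⁻¹ := by
    rw [trn]; group
  have hle : ∀ k, 1 ≤ k → ∀ ζ, tc d ζ ∈ E d k := fun k hk ζ => E_mono d hk (tc_mem ζ)
  rw [h1]
  refine mul_mem (mul_mem (hle _ (by omega) _) ?_) (inv_mem (hle _ (by omega) _))
  exact E_le_succ d _ (BB_le_succ d m hb)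

end Pool.Agent.K3h28.PA
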