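import Pool.Agent.K3h28.PA.Bb
import Pool.Agent.Y812.SS.Wr
import Pool.Agent.R779.FJ.Col
import Pool.Agent.Y961.FJ.Perm
import Pool.Agent.Y529.FJ.Ext

/-!
# The base: functions of finite range on the vertices of the tree
-/

set_option autoImplicit false

open Classical

namespace Pool.Agent.K3h28.PA

open Pool.Agent.Y462.SS
open Pool.Agent.Y110.FJ (ClosedE Realized)

variable {X : Type}

/-- the functions of finite range on the vertices, extended by `G` -/
def PP (G : Subgroup (T X)) : Subgroup (Wr (List X) G) where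
  carrier := {w | (∃ g ∈ G, w.p = g.1) ∧ (Set.range w.s).Finite}
  one_mem' := by
    refine ⟨⟨1, one_mem _, rfl⟩, (Set.finite_singleton (1 : G)).subset ?_⟩
    rintro _ ⟨v, rfl⟩
    rfl
  mul_mem' := by
    rintro a b ⟨⟨g, hg, hgp⟩, ha⟩ ⟨⟨h, hh, hhp⟩, hb⟩
    refine ⟨⟨g * h, mul_mem hg hh, ?_⟩, (Set.Finite.image2 (· * ·) ha hb).subset ?_⟩
    · rw [Wr.mul_p, hgp, hhp]; rfl
    · rintro _ ⟨v, rfl⟩
      exact ⟨_, ⟨b.p v, rfl⟩, _, ⟨v, rfl⟩, rfl⟩
  inv_mem' := by
    rintro a ⟨⟨g, hg, hgp⟩, ha⟩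
    refine ⟨⟨g⁻¹, inv_mem hg, ?_⟩, (Set.Finite.image (·⁻¹) ha).subset ?_⟩
    · rw [Wr.inv_p, hgp]; rfl
    · rintro _ ⟨v, rfl⟩
      exact ⟨_, ⟨a.p⁻¹ v, rfl⟩, rfl⟩

variable {G : Subgroup (T X)}

theorem pp_tree (w : PP G) : IsTree w.1.p := by
  obtain ⟨g, _, h⟩ := w.2.1
  rw [h]; exact g.2

theorem pp_mem (w : PP G) : (⟨w.1.p, pp_tree w⟩ : T X) ∈ G := by
  obtain ⟨g, hg, h⟩ := w.2.1
  have : (⟨w.1.p, pp_tree w⟩ : T X) = g := Subtype.ext h
  rw [this]; exact hg

/-- the projection to `G` -/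
def ppr (G : Subgroup (T X)) : PP G →* G where
  toFun w := ⟨⟨w.1.p, pp_tree w⟩, pp_mem w⟩
  map_one' := rfl
  map_mul' _ _ := rfl

theorem ppr_ker (w : PP G) (h : w ∈ (ppr G).ker) : w.1.p = 1 :=
  congrArg (fun z : G => z.1.1) ((MonoidHom.mem_ker).1 h)

/-- words of bounded length -/
abbrev Wd' (X : Type) (L : ℕ) : Type := {v : List X // v.length ≤ L}

theorem finite_Wd [Finite X] (L : ℕ) : Finite (Wd' X L) := by
  have h1 : {v : List X | v.length ≤ L}.Finite := List.finite_length_le X L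
  exact h1.to_subtype

/-- restriction to the words of bounded length -/
def res (G : Subgroup (T X)) (L : ℕ) : PP G →* Wr (Wd' X L) G where
  toFun w := ⟨fun v => w.1.s v.1, w.1.p.subtypePerm (fun v => by rw [(pp_tree w).1 v])⟩
  map_one' := rfl
  map_mul' _ _ := rfl

/-- **the class contains the functions of finite range, extended by `G`** -/
theorem C_PP [Finite X] {C : ∀ (G : Type) [Group G], Prop} (hC : ClosedE C) (hG : C G) :
    C (PP G) := by
  refine Pool.Agent.R779.FJ.t_crit Pool.Agent.Y529.FJ.t_ext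
    (Pool.Agent.Y961.FJ.t_perm Pool.Agent.Y529.FJ.t_ext) C hC (PP G) (ppr G).ker ?_ ?_
  · refine hC.base.of_injective _ _ ((Subgroup.subtype _).comp
      (QuotientGroup.quotientKerEquivRange (ppr G)).toMonoidHom) ?_ hG
    exact Subtype.val_injective.comp (QuotientGroup.quotientKerEquivRange (ppr G)).injective
  · intro g E hE hEN
    obtain ⟨E', hE'⟩ : ∃ E' : Set (PP G), E' = E ∪ (fun x => g * x * g⁻¹) '' E := ⟨_, rfl⟩
    have hE'f : E'.Finite := by rw [hE']; exact hE.union (hE.image _)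
    have hE'N : E' ⊆ (ppr G).ker := by
      rw [hE']
      refine Set.union_subset hEN ?_
      rintro _ ⟨x, hx, rfl⟩
      exact Subgroup.Normal.conj_mem inferInstance x (hEN hx) g
    -- representatives of the values
    have hrep : ∃ L : ℕ, ∀ v : List X, ∃ v0 : List X, v0.length ≤ L ∧
        ∀ e ∈ E', e.1.s v = e.1.s v0 := by
      have : Finite E' := hE'f.to_subtype
      let Φ : List X → (E' → G) := fun v e => e.1.1.s v
      have hΦ : (Set.range Φ).Finite := by
        refine (Set.Finite.pi' (fun e : E' => e.1.2.2)).subset ?_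
        rintro _ ⟨v, rfl⟩ e
        exact ⟨v, rfl⟩
      have : Finite (Set.range Φ) := hΦ.to_subtype
      let sct : Set.range Φ → List X := fun y => y.2.choose
      have hsct : ∀ y, Φ (sct y) = y.1 := fun y => y.2.choose_spec
      obtain ⟨L, hL⟩ := (Set.finite_range (fun y => (sct y).length)).bddAbove
      refine ⟨L, fun v => ⟨sct ⟨Φ v, v, rfl⟩, hL ⟨_, rfl⟩, fun e he => ?_⟩⟩
      have h1 := congrFun (hsct ⟨Φ v, v, rfl⟩) ⟨e, he⟩
      exact h1.symm
    obtain ⟨L, hL⟩ := hrep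
    choose v0 hv0 hv using hL
    have := finite_Wd (X := X) L
    have hcl : ∀ w ∈ Subgroup.closure E', w.1.p = 1 ∧ ∀ v, w.1.s v = w.1.s (v0 v) := by
      intro w hw
      induction hw using Subgroup.closure_induction with
      | mem e he => exact ⟨ppr_ker e (hE'N he), fun v => hv v e he⟩
      | one => exact ⟨rfl, fun v => rfl⟩
      | mul a b _ _ ha hb =>
        refine ⟨?_, fun v => ?_⟩
        · change a.1.p * b.1.p = 1
          rw [ha.1, hb.1, one_mul]
        · change a.1.s (b.1.p v) * b.1.s v = a.1.s (b.1.p (v0 v)) * b.1.s (v0 v)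
          rw [hb.1]
          change a.1.s v * b.1.s v = a.1.s (v0 v) * b.1.s (v0 v)
          rw [ha.2 v, hb.2 v]
      | inv a _ ha =>
        refine ⟨?_, fun v => ?_⟩
        · change a.1.p⁻¹ = 1
          rw [ha.1, inv_one]
        · change (a.1.s (a.1.p⁻¹ v))⁻¹ = (a.1.s (a.1.p⁻¹ (v0 v)))⁻¹
          rw [ha.1, inv_one]
          change (a.1.s v)⁻¹ = (a.1.s (v0 v))⁻¹
          rw [ha.2 v]
    refine ⟨Wr (Wd' X L) G, inferInstance, (res G L).comp (Subgroup.subtype _), res G L g,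
      Pool.Agent.Y812.SS.t_wr C hC.base (Wd' X L) G inferInstance hG, ?_, ?_⟩
    · rw [injective_iff_map_eq_one]
      intro w hw
      have hw' : w.1 ∈ Subgroup.closure E' := by rw [hE']; exact w.2
      obtain ⟨h1, h2⟩ := hcl w.1 hw'
      apply Subtype.ext
      apply Subtype.ext
      apply Wr.ext
      · funext v
        rw [h2 v]
        exact congrFun (congrArg Wr.s hw) ⟨v0 v, hv0 v⟩
      · exact h1
    · intro x y _ hy
      change res G L y.1 = res G L g * res G L x.1 * (res G L g)⁻¹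
      rw [hy, map_mul, map_mul, map_inv]

end Pool.Agent.K3h28.PA
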