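import Pool.Agent.K3h28.PA.Ag

/-!
# The double induction
-/

set_option autoImplicit false

open Classical

namespace Pool.Agent.K3h28.PA

open Pool.Agent.Y462.SS
open Pool.Agent.Y331.SS (wmap wmap_s wmap_p)
open Pool.Agent.Y110.FJ (ClosedE)

variable {X : Type} {d : X}

theorem isRH_comp {Q Q' : Type} [Group Q] [Group Q'] {ψ : Q →* Wr X Q} {ψ' : Q' →* Wr X Q'}
    {j : Q →* Q'} (hj : ∀ q, ψ' (j q) = wmap j (ψ q)) {H : Subgroup (T X)} {ι : H →* Q}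
    (hι : IsRH ψ H ι) : IsRH ψ' H (j.comp ι) := by
  refine ⟨fun h => ?_, fun h x hx => ?_⟩
  · rw [MonoidHom.comp_apply, hj, wmap_p, hι.p]
  · rw [MonoidHom.comp_apply, hj, wmap_s, hι.s h x hx]
    rfl

theorem isRH_res {Q : Type} [Group Q] {ψ : Q →* Wr X Q} {H L : Subgroup (T X)} (hL : L ≤ H)
    {ι : H →* Q} (hH : SelfSim H) (hι : IsRH ψ H ι) :
    IsRH ψ L (ι.comp (Subgroup.inclusion hL)) := by
  refine ⟨fun h => ?_, fun h x hx => ?_⟩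
  · rw [MonoidHom.comp_apply, hι.p]; rfl
  · rw [MonoidHom.comp_apply, hι.s _ x (hH _ (hL h.2) x)]
    rfl

theorem isRB_res {Q : Type} [Group Q] {ψ : Q →* Wr X Q} {H L : Subgroup (T X)} (hL : L ≤ H)
    {ρ : H →* Q} {κ : BB d H →* Q} (hκ : IsRB d ψ H ρ κ) :
    IsRB d ψ L (ρ.comp (Subgroup.inclusion hL)) (κ.comp (Subgroup.inclusion (bb_mono hL))) := by
  refine ⟨fun b => ?_, fun b h => ?_, fun b x hx h => ?_⟩
  · rw [MonoidHom.comp_apply, hκ.p]; rfl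
  · rw [MonoidHom.comp_apply, hκ.sd _ (bb_mono hL h)]
    rfl
  · rw [MonoidHom.comp_apply, hκ.so _ x hx (hL h)]
    rfl

/-- **the claim** -/
theorem claim [Finite X] {C : ∀ (G : Type) [Group G], Prop} (hC : ClosedE C) (k : ℕ) :
    ∀ (i m n : ℕ), n = i + 1 + k → i + k ≤ m → ∀ (Q : Type) [Group Q] (ψ : Q →* Wr X Q)
      (ι : E d (i + 1) →* Q) (κ : BB d (E d m) →* Q), C Q → Function.Injective ψ →
      IsRH ψ (E d (i + 1)) ι → Function.Injective κ →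
      (∀ (b : T X) (h1 : b ∈ E d (i + 1)) (h2 : b ∈ BB d (E d m)), b ∈ BB d (E d i) →
        ι ⟨b, h1⟩ = κ ⟨b, h2⟩) →
      ∃ (Q' : Type) (_ : Group Q') (ψ' : Q' →* Wr X Q') (j : Q →* Q') (ι' : E d n →* Q'),
        C Q' ∧ Function.Injective ψ' ∧ Function.Injective j ∧ (∀ q, ψ' (j q) = wmap j (ψ q)) ∧
        IsRH ψ' (E d n) ι' ∧
        ∀ (a : T X) (h1 : a ∈ E d (i + 1)) (h2 : a ∈ E d n), ι' ⟨a, h2⟩ = j (ι ⟨a, h1⟩) := by
  induction k with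
  | zero =>
    intro i m n hn _ Q _ ψ ι κ hQ hψ hι _ _
    rw [add_zero] at hn
    subst hn
    exact ⟨Q, inferInstance, ψ, MonoidHom.id Q, ι, hQ, hψ, fun a b h => h, fun q => rfl, hι,
      fun a h1 h2 => rfl⟩
  | succ k ih =>
    intro i m n hn hm Q _ ψ ι κ hQ hψ hι hκ hag
    obtain ⟨Q1, _, ψ1, j1, ι1, hQ1, hψ1, hj1, hjr1, hι1, he1⟩ :=
      ih i m (i + 1 + k) rfl (by omega) Q ψ ι κ hQ hψ hι hκ hag
    have hn1 : i + 1 + k ≤ m := by omega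
    have hi : E d (i + 1) ≤ E d (i + 1 + k) := E_mono d (by omega)
    obtain ⟨Q2, _, ψ2, j2, κ2, hQ2, hψ2, hj2, hjr2, hκ2, hag2⟩ :=
      amal (d := d) (ψ := ψ1) (E := E d (i + 1 + k)) (F := E d i) (ρ := ι1) hC (P := Q1) hQ1 hψ1
        (selfSim_E d _) hι1
        ((BB_le_succ d i).trans hi) ((E_le_succ d i).trans hi) (MonoidHom.id Q1) (fun a b h => h)
        ((j1.comp κ).comp (Subgroup.inclusion (bb_mono (E_mono d hn1))))
        (by
          intro a b h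
          exact Subgroup.inclusion_injective _ (hκ (hj1 h)))
        (by
          intro b h1 h2 hb
          change ι1 ⟨b, h1⟩ = j1 (κ ⟨b, _⟩)
          rw [he1 b (BB_le_succ d i hb) h1]
          congr 1
          exact hag b _ _ hb)
    -- the next group
    have hιs := isRH_res hi (selfSim_E d _) (isRH_comp hjr2 hι1)
    have hκs := isRB_res hi hκ2
    obtain ⟨ι2, hι2, he2, hb2⟩ : ∃ ι2 : E d (i + 2) →* Q2, IsRH ψ2 (E d (i + 2)) ι2 ∧
        (∀ a (h1 : a ∈ E d (i + 1)) (h2 : a ∈ E d (i + 2)),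
          ι2 ⟨a, h2⟩ = ((j2.comp ι1).comp (Subgroup.inclusion hi)) ⟨a, h1⟩) ∧
        (∀ b (h1 : b ∈ BB d (E d (i + 1))) (h2 : b ∈ E d (i + 2)),
          ι2 ⟨b, h2⟩ = (κ2.comp (Subgroup.inclusion (bb_mono hi))) ⟨b, h1⟩) := by
      rw [E_succ]
      exact ext_next hψ2 (selfSim_E d _) hιs hκs (E_le_succ d i)
        (fun b h1 h2 hb => hag2 b (hi h1) (bb_mono hi h2) hb) (good_E i)
    obtain ⟨Q3, _, ψ3, j3, ι3, hQ3, hψ3, hj3, hjr3, hι3, he3⟩ :=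
      ih (i + 1) (i + 1 + k) n (by omega) (by omega) Q2 ψ2 ι2 κ2 hQ2 hψ2 hι2
        (inj_rb (selfSim_E d _) (isRH_comp hjr2 hι1) hκ2)
        (fun b h1 h2 hb => hb2 b hb h1)
    refine ⟨Q3, inferInstance, ψ3, (j3.comp j2).comp j1, ι3, hQ3, hψ3, ?_, ?_, hι3, ?_⟩
    · exact (hj3.comp hj2).comp hj1
    · intro q
      change ψ3 (j3 (j2 (j1 q))) = _
      rw [hjr3, hjr2, hjr1]
      rfl
    · intro a h1 h2
      rw [he3 a (E_le_succ d (i + 1) h1) h2, he2 a h1]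
      change j3 (j2 (ι1 ⟨a, _⟩)) = j3 (j2 (j1 _))
      rw [he1 a h1]

end Pool.Agent.K3h28.PA
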