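import Pool.Agent.K3h28.PA.Bs
import Pool.Agent.K3h28.PA.In

/-!
# The base of the double induction
-/

set_option autoImplicit false

open Classical

namespace Pool.Agent.K3h28.PA

open Pool.Agent.Y462.SS
open Pool.Agent.Y331.SS (wmap wmap_s wmap_p)
open Pool.Agent.Y110.FJ (ClosedE)

variable {X : Type} {d : X} {G : Subgroup (T X)}

/-- the permutations of the letters along the ray -/
noncomputable def prm (G : Subgroup (T X)) : BB d G →* (ℕ → B1 d 0) where
  toFun b n := ⟨⟨fun _ => 1, root (av d b.1 n)⟩, b.2.1 n, rfl⟩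
  map_one' := by
    funext n
    apply Subtype.ext
    apply Wr.ext
    · rfl
    · change root (av d 1 n) = 1
      rw [av_one, root_one]
  map_mul' a b := by
    funext n
    apply Subtype.ext
    apply Wr.ext
    · funext x
      change (1 : Dk X 0) = 1 * 1
      rw [one_mul]
    · change root (av d (a.1 * b.1) n) = root (av d a.1 n) * root (av d b.1 n)
      rw [av_mul d b.2.1, root_mul]

/-- forget the sections off the ray -/
noncomputable def rr (G : Subgroup (T X)) : BB d G →* T X :=
  (tau (psi d 0)).comp ((iB d 0).comp (prm G))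

theorem root_rr (b : BB d G) : root (rr G b) = root b.1 := by
  change root (tau (psi d 0) (iB d 0 (prm G b))) = _
  rw [root_tau, psi_iB]
  rfl

theorem sec_rr_d (b : BB d G) : sec (rr G b) d = rr G ⟨sec b.1 d, bb_sec b.2⟩ := by
  change sec (tau (psi d 0) (iB d 0 (prm G b))) d = tau (psi d 0) (iB d 0 _)
  rw [sec_tau, psi_iB]
  change tau (psi d 0) (if d = d then iB d 0 (sh (prm G b)) else _) = _
  rw [if_pos rfl]
  congr 2
  funext n
  apply Subtype.ext
  apply Wr.ext
  · rfl
  · change root (av d b.1 (n + 1)) = root (av d (sec b.1 d) n)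
    rw [av_sec]

theorem sec_rr_ne (b : BB d G) {x : X} (hx : x ≠ d) : sec (rr G b) x = 1 := by
  change sec (tau (psi d 0) (iB d 0 (prm G b))) x = _
  rw [sec_tau, psi_iB]
  change tau (psi d 0) (if x = d then iB d 0 (sh (prm G b)) else iA d 0 1) = _
  rw [if_neg hx, map_one, map_one]

theorem rr_mem [Finite X] (hG : BB d (⊥ : Subgroup (T X)) ≤ G) (b : BB d G) : rr G b ∈ G :=
  hG (iB_mem _)

/-- the sections off the ray as a function on the vertices -/
noncomputable def sv (d : X) : T X → List X → T X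
  | _, [] => 1
  | b, x :: w => if x = d then sv d (sec b d) w else (if w = [] then sec b x else 1)

theorem sv_nil (b : T X) : sv d b [] = 1 := by rw [sv]

theorem sv_cons (b : T X) (x : X) (w : List X) :
    sv d b (x :: w) = if x = d then sv d (sec b d) w else (if w = [] then sec b x else 1) := by
  rw [sv]

theorem sv_mem (v : List X) : ∀ b ∈ BB d G, sv d b v ∈ G := by
  induction v with
  | nil => intro b _; rw [sv_nil]; exact one_mem _
  | cons x w ih =>
    intro b hb
    rw [sv_cons]
    by_cases hx : x = d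
    · rw [if_pos hx]; exact ih _ (bb_sec hb)
    · rw [if_neg hx]
      by_cases hw : w = []
      · rw [if_pos hw]; exact bb_off hb hx
      · rw [if_neg hw]; exact one_mem _

theorem sv_mul (v : List X) : ∀ a b : BB d G,
    sv d (a.1 * b.1) v = sv d a.1 ((rr G b).1 v) * sv d b.1 v := by
  induction v with
  | nil => intro a b; rw [nil_eq, sv_nil, sv_nil, sv_nil, one_mul]
  | cons x w ih =>
    intro a b
    rw [cons_eq, root_rr, sv_cons, sv_cons, sv_cons]
    by_cases hx : x = d
    · rw [if_pos hx, hx, if_pos (bb_root b.2), if_pos rfl, sec_mul, bb_root b.2, sec_rr_d]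
      exact ih ⟨_, bb_sec a.2⟩ ⟨_, bb_sec b.2⟩
    · rw [if_neg hx, if_neg hx, if_neg (bb_ne b.2 hx), sec_rr_ne b hx]
      by_cases hw : w = []
      · rw [if_pos hw, if_pos hw, if_pos (by rw [hw]; rfl), sec_mul]
      · rw [if_neg hw, if_neg hw, if_neg (by exact hw), one_mul]

theorem sv_one (v : List X) : sv d 1 v = 1 := by
  induction v with
  | nil => rw [sv_nil]
  | cons x w ih =>
    rw [sv_cons, sec_one, sec_one, ih]
    simp

theorem sv_val (v : List X) : ∀ b : T X, sv d b v = 1 ∨
    ∃ n x, sv d b v = (dat d (av d b n)).s x := by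
  induction v with
  | nil => intro b; exact Or.inl (sv_nil b)
  | cons x w ih =>
    intro b
    rw [sv_cons]
    by_cases hx : x = d
    · rw [if_pos hx]
      rcases ih (sec b d) with h | ⟨n, y, h⟩
      · exact Or.inl h
      · refine Or.inr ⟨n + 1, y, ?_⟩
        rw [h, av_sec]
    · rw [if_neg hx]
      by_cases hw : w = []
      · refine Or.inr ⟨0, x, ?_⟩
        rw [if_pos hw]
        exact (if_neg hx).symm
      · rw [if_neg hw]; exact Or.inl rfl

theorem sv_finite [Finite X] {b : T X} (hb : b ∈ BB d G) : (Set.range (sv d b)).Finite := by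
  have h1 : (Set.image2 (fun (w : Wr X (T X)) (x : X) => w.s x)
      (Set.range fun n => dat d (av d b n)) Set.univ).Finite :=
    Set.Finite.image2 _ hb.2.2 Set.finite_univ
  refine (h1.insert 1).subset ?_
  rintro _ ⟨v, rfl⟩
  rcases sv_val v b with h | ⟨n, x, h⟩
  · exact Or.inl h
  · exact Or.inr ⟨_, ⟨n, rfl⟩, x, trivial, h.symm⟩

/-- a directed automorphism is determined by its values -/
theorem bb_eq_one (w : List X) : ∀ b : BB d G, (∀ v, sv d b.1 v = 1) → rr G b = 1 →
    b.1.1 w = w := by
  induction w with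
  | nil => intro b _ _; exact nil_eq _
  | cons x w ih =>
    intro b h1 h2
    have h3 : root b.1 = 1 := by rw [← root_rr, h2, root_one]
    rw [cons_eq, h3]
    by_cases hx : x = d
    · subst hx
      have h4 := ih ⟨_, bb_sec b.2⟩ (fun v => by
          have := h1 (x :: v)
          rwa [sv_cons, if_pos rfl] at this)
        (by rw [← sec_rr_d, h2, sec_one])
      rw [h4]; rfl
    · have h4 := h1 [x]
      rw [sv_cons, if_neg hx, if_pos rfl] at h4
      rw [h4]; rfl

/-- the directed automorphisms without sections off the ray -/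
theorem bb_bot (v : List X) : ∀ b ∈ BB d (⊥ : Subgroup (T X)), sv d b v = 1 := by
  induction v with
  | nil => intro b _; exact sv_nil b
  | cons x w ih =>
    intro b hb
    rw [sv_cons]
    by_cases hx : x = d
    · rw [if_pos hx]; exact ih _ (bb_sec hb)
    · have h1 : sec b x = 1 := bb_off hb hx
      rw [if_neg hx, h1, ite_self]

theorem rr_bot (w : List X) : ∀ b : BB d G, b.1 ∈ BB d (⊥ : Subgroup (T X)) →
    (rr G b).1 w = b.1.1 w := by
  induction w with
  | nil => intro b _; rw [nil_eq, nil_eq]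
  | cons x w ih =>
    intro b hb
    rw [cons_eq, cons_eq, root_rr]
    by_cases hx : x = d
    · subst hx
      rw [sec_rr_d, ih ⟨_, bb_sec b.2⟩ (bb_sec hb)]
    · have h1 : sec b.1 x = 1 := bb_off hb hx
      rw [sec_rr_ne b hx, h1]

/-- the first factor -/
def uG (G : Subgroup (T X)) : G →* PP G where
  toFun g := ⟨⟨fun _ => 1, g.1.1⟩, ⟨g.1, g.2, rfl⟩, (Set.finite_singleton (1 : G)).subset (by
    rintro _ ⟨v, rfl⟩
    rfl)⟩
  map_one' := rfl
  map_mul' a b := by
    apply Subtype.ext
    apply Wr.ext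
    · funext v
      change (1 : G) = 1 * 1
      rw [one_mul]
    · rfl

/-- the second factor -/
noncomputable def vB [Finite X] (hG : BB d (⊥ : Subgroup (T X)) ≤ G) : BB d G →* PP G where
  toFun b := ⟨⟨fun v => ⟨sv d b.1 v, sv_mem v b.1 b.2⟩, (rr G b).1⟩, ⟨rr G b, rr_mem hG b, rfl⟩, by
    refine Set.Finite.of_finite_image (f := Subtype.val) ?_ Subtype.val_injective.injOn
    refine (sv_finite b.2).subset ?_
    rintro _ ⟨_, ⟨v, rfl⟩, rfl⟩
    exact ⟨v, rfl⟩⟩
  map_one' := by
    apply Subtype.ext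
    apply Wr.ext
    · funext v
      exact Subtype.ext (sv_one v)
    · change (rr G 1).1 = 1
      rw [map_one]; rfl
  map_mul' a b := by
    apply Subtype.ext
    apply Wr.ext
    · funext v
      exact Subtype.ext (sv_mul v a b)
    · change (rr G (a * b)).1 = (rr G a).1 * (rr G b).1
      rw [map_mul]; rfl

theorem uG_inj : Function.Injective (uG G) := by
  intro a b h
  apply Subtype.ext
  apply Subtype.ext
  exact congrArg (fun z : PP G => z.1.p) h

theorem vB_inj [Finite X] (hG : BB d (⊥ : Subgroup (T X)) ≤ G) : Function.Injective (vB hG) := by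
  rw [injective_iff_map_eq_one]
  intro b hb
  apply Subtype.ext
  apply Subtype.ext
  apply Equiv.ext
  intro w
  refine bb_eq_one w b (fun v => ?_) ?_
  · have h1 := congrFun (congrArg (fun z : PP G => z.1.s) hb) v
    exact congrArg Subtype.val h1
  · apply Subtype.ext
    exact congrArg (fun z : PP G => z.1.p) hb

theorem uv [Finite X] (hG : BB d (⊥ : Subgroup (T X)) ≤ G) (b : T X) (h1 : b ∈ G)
    (h2 : b ∈ BB d G) (hb : b ∈ BB d (⊥ : Subgroup (T X))) : uG G ⟨b, h1⟩ = vB hG ⟨b, h2⟩ := by
  apply Subtype.ext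
  apply Wr.ext
  · funext v
    exact (Subtype.ext (bb_bot v b hb)).symm
  · apply Equiv.ext
    intro w
    exact (rr_bot w ⟨b, h2⟩ hb).symm

/-! ## the chain is in the class -/

/-- the recursion of a self-similar group -/
def psiG (hG : SelfSim G) : G →* Wr X G where
  toFun g := ⟨fun x => ⟨sec g.1 x, hG g.1 g.2 x⟩, root g.1⟩
  map_one' := by
    apply Wr.ext
    · funext x
      exact Subtype.ext (sec_one x)
    · exact root_one
  map_mul' a b := by
    apply Wr.ext
    · funext x
      exact Subtype.ext (sec_mul a.1 b.1 x)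
    · exact root_mul a.1 b.1

theorem psiG_inj (hG : SelfSim G) : Function.Injective (psiG hG) := by
  intro a b h
  apply Subtype.ext
  refine T_ext (congrArg Wr.p h) fun x => ?_
  exact congrArg Subtype.val (congrFun (congrArg Wr.s h) x)

theorem isRH_id (hG : SelfSim G) : IsRH (psiG hG) G (MonoidHom.id G) :=
  ⟨fun _ => rfl, fun _ _ _ => rfl⟩

theorem C_next [Finite X] {C : ∀ (G : Type) [Group G], Prop} (hC : ClosedE C) (m : ℕ)
    (hm : C (E d (m + 1))) : C (E d (m + 2)) := by
  have hG : BB d (⊥ : Subgroup (T X)) ≤ E d (m + 1) := by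
    have h1 := BB_le_succ d 0
    rw [E_zero] at h1
    exact h1.trans (E_mono d (by omega))
  have h0 : E d 0 = (⊥ : Subgroup (T X)) := E_zero d
  obtain ⟨Q2, _, ψ2, j2, κ2, hQ2, hψ2, hj2, hjr2, hκ2, hag2⟩ :=
    amal (d := d) (ψ := psiG (selfSim_E d (m + 1))) (E := E d (m + 1)) (F := E d 0)
      (ρ := MonoidHom.id _) hC (P := PP (E d (m + 1))) (C_PP hC hm) (psiG_inj _)
      (selfSim_E d _) (isRH_id _) (by rw [h0]; exact hG) (by rw [h0]; exact bot_le)
      (uG _) uG_inj (vB hG) (vB_inj hG)
      (fun b h1 h2 hb => uv hG b h1 h2 (by rw [h0] at hb; exact hb))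
  have hι := isRH_res (E_mono d (show 1 ≤ m + 1 by omega)) (selfSim_E d _)
    (isRH_comp hjr2 (isRH_id (selfSim_E d (m + 1))))
  obtain ⟨Q3, _, ψ3, j3, ι3, hQ3, hψ3, hj3, hjr3, hι3, he3⟩ :=
    claim (d := d) hC (m + 1) 0 (m + 1) (m + 2) (by omega) (by omega) Q2 ψ2
      ((j2.comp (MonoidHom.id _)).comp (Subgroup.inclusion (E_mono d (show 1 ≤ m + 1 by omega))))
      κ2 hQ2 hψ2 hι
      (inj_rb (selfSim_E d _) (isRH_comp hjr2 (isRH_id (selfSim_E d (m + 1)))) hκ2)
      (fun b h1 h2 hb => hag2 b (E_mono d (show 1 ≤ m + 1 by omega) h1) h2 hb)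
  exact hC.base.of_injective _ _ ι3 (inj_rh (selfSim_E d _) hι3) hQ3

end Pool.Agent.K3h28.PA
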