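import Pool.Agent.K3h28.PA.Bt
import Pool.Agent.K3h28.PA.Au
import Pool.Agent.Y430.SS.Lf
import Pool.Agent.Y179.SS.Free

/-!
# Groups of ranked automorphisms
-/

set_option autoImplicit false

open Classical

namespace Pool.Agent.K3h28.PA

open Pool.Agent.Y462.SS
open Pool.Agent.Y110.FJ (ClosedE)

variable {X : Type} {d : X}

theorem C_E_succ [Finite X] {C : ∀ (G : Type) [Group G], Prop} (hC : ClosedE C) (n : ℕ) :
    C (E d (n + 1)) := by
  induction n with
  | zero =>
    rw [E_one]
    exact M_closed d 0 C hC.base Pool.Agent.Y430.SS.t_lf Pool.Agent.Y430.SS.t_pow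
      Pool.Agent.Y179.SS.t_free (Pool.Agent.Y331.SS.t_lim Pool.Agent.Y812.SS.t_wr)
  | succ n ih => exact C_next hC n ih

/-- **groups generated by ranked automorphisms** -/
theorem ranked_closed {C : ∀ (G : Type) [Group G], Prop} (hC : ClosedE C) (X : Type) (hX : Finite X)
    (S : Set (T X)) (hS : ∀ s ∈ S, Ranked s) : C (Subgroup.closure S) := by
  rcases isEmpty_or_nonempty X with hE | ⟨⟨d⟩⟩
  · have h1 : ∀ g : T X, g = 1 := by
      intro g
      apply Subtype.ext
      apply Equiv.ext
      intro w
      cases w with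
      | nil => exact nil_eq g
      | cons x _ => exact (hE.false x).elim
    have h2 : Subsingleton (Subgroup.closure S) :=
      ⟨fun a b => Subtype.ext ((h1 a.1).trans (h1 b.1).symm)⟩
    exact Pool.Agent.Y430.SS.of_finite hC.base _ inferInstance
  · let K : ℕ → Subgroup (Subgroup.closure S) := fun n =>
      (E d (n + 1)).comap (Subgroup.closure S).subtype
    have hK : Monotone K := fun m n h g hg => E_mono d (by omega : m + 1 ≤ n + 1) hg
    let U : Subgroup (T X) :=
      { carrier := {g | ∃ n, g ∈ E d n}
        one_mem' := ⟨0, one_mem _⟩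
        mul_mem' := by
          rintro a b ⟨m, hm⟩ ⟨n, hn⟩
          exact ⟨max m n, mul_mem (E_mono d (le_max_left m n) hm) (E_mono d (le_max_right m n) hn)⟩
        inv_mem' := by
          rintro a ⟨m, hm⟩
          exact ⟨m, inv_mem hm⟩ }
    have hU : Subgroup.closure S ≤ U := by
      rw [Subgroup.closure_le]
      exact fun s hs => ranked_mem (hS s hs)
    refine Pool.Agent.Y430.SS.t_union C hC.base (Subgroup.closure S) K hK (fun g => ?_) fun n => ?_
    · obtain ⟨n, hn⟩ := hU g.2
      exact ⟨n, E_le_succ d n hn⟩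
    · let φ : K n →* E d (n + 1) :=
        { toFun := fun g => ⟨g.1.1, g.2⟩
          map_one' := rfl
          map_mul' := fun _ _ => rfl }
      refine hC.base.of_injective _ _ φ ?_ (C_E_succ hC n)
      intro a b hab
      have h1 : a.1.1 = b.1.1 := congrArg (fun z : E d (n + 1) => z.1) hab
      exact Subtype.ext (Subtype.ext h1)

end Pool.Agent.K3h28.PA
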