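import Pool.Agent.K3h28.PA.Bb

/-!
# Groups with a recursion, recursive homomorphisms and the levels of their elements
-/

set_option autoImplicit false

open Classical

namespace Pool.Agent.K3h28.PA

open Pool.Agent.Y462.SS

variable {X : Type} {d : X}

/-- `ι` is compatible with the recursions of `H` and of `Q` -/
structure IsRH {Q : Type} [Group Q] (ψ : Q →* Wr X Q) (H : Subgroup (T X)) (ι : H →* Q) :
    Prop where
  p : ∀ h : H, (ψ (ι h)).p = root h.1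
  s : ∀ (h : H) (x : X) (hx : sec h.1 x ∈ H), (ψ (ι h)).s x = ι ⟨sec h.1 x, hx⟩

/-- `κ` is compatible with the recursions of `BB d E` and of `Q`, with the sections off the ray given
by `ρ` -/
structure IsRB (d : X) {Q : Type} [Group Q] (ψ : Q →* Wr X Q) (E : Subgroup (T X)) (ρ : E →* Q)
    (κ : BB d E →* Q) : Prop where
  p : ∀ b : BB d E, (ψ (κ b)).p = root b.1
  sd : ∀ (b : BB d E) (h : sec b.1 d ∈ BB d E), (ψ (κ b)).s d = κ ⟨sec b.1 d, h⟩
  so : ∀ (b : BB d E) (x : X), x ≠ d → ∀ h : sec b.1 x ∈ E, (ψ (κ b)).s x = ρ ⟨sec b.1 x, h⟩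

section tau

variable {Q : Type} [Group Q] {ψ : Q →* Wr X Q}

theorem act_rh {H : Subgroup (T X)} (hH : SelfSim H) {ι : H →* Q} (hι : IsRH ψ H ι)
    (w : List X) (h : H) : act ψ (ι h) w = h.1.1 w := by
  induction w generalizing h with
  | nil => rw [act_nil, nil_eq]
  | cons x w ih => rw [act_cons, cons_eq, hι.p, hι.s h x (hH h.1 h.2 x), ih]

theorem tau_rh {H : Subgroup (T X)} (hH : SelfSim H) {ι : H →* Q} (hι : IsRH ψ H ι) (h : H) :
    tau ψ (ι h) = h.1 := by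
  apply Subtype.ext
  apply Equiv.ext
  exact fun w => act_rh hH hι w h

theorem act_rb {E : Subgroup (T X)} (hE : SelfSim E) {ρ : E →* Q} (hρ : IsRH ψ E ρ)
    {κ : BB d E →* Q} (hκ : IsRB d ψ E ρ κ) (w : List X) (b : BB d E) :
    act ψ (κ b) w = b.1.1 w := by
  induction w generalizing b with
  | nil => rw [act_nil, nil_eq]
  | cons x w ih =>
    rw [act_cons, cons_eq, hκ.p]
    by_cases hx : x = d
    · subst hx
      rw [hκ.sd b (bb_sec b.2), ih]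
    · rw [hκ.so b x hx (bb_off b.2 hx), act_rh hE hρ]

theorem tau_rb {E : Subgroup (T X)} (hE : SelfSim E) {ρ : E →* Q} (hρ : IsRH ψ E ρ)
    {κ : BB d E →* Q} (hκ : IsRB d ψ E ρ κ) (b : BB d E) : tau ψ (κ b) = b.1 := by
  apply Subtype.ext
  apply Equiv.ext
  exact fun w => act_rb hE hρ hκ w b

theorem inj_rh {H : Subgroup (T X)} (hH : SelfSim H) {ι : H →* Q} (hι : IsRH ψ H ι) :
    Function.Injective ι := by
  intro a b h
  apply Subtype.ext
  rw [← tau_rh hH hι a, h, tau_rh hH hι]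

theorem inj_rb {E : Subgroup (T X)} (hE : SelfSim E) {ρ : E →* Q} (hρ : IsRH ψ E ρ)
    {κ : BB d E →* Q} (hκ : IsRB d ψ E ρ κ) : Function.Injective κ := by
  intro a b h
  apply Subtype.ext
  rw [← tau_rb hE hρ hκ a, h, tau_rb hE hρ hκ]

end tau

/-! ## levels -/

section lev

variable {Q : Type} [Group Q] (ψ : Q →* Wr X Q)

/-- all sections have the property `P` eventually -/
inductive Ev (P : Q → Prop) : Q → Prop
  | base (γ : Q) : P γ → Ev P γ
  | step (γ : Q) : (∀ x, Ev P ((ψ γ).s x)) → Ev P γ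

theorem ev_mul {P P' P'' : Q → Prop} (hP : ∀ a, P a → ∀ x, P ((ψ a).s x))
    (hP' : ∀ a, P' a → ∀ x, P' ((ψ a).s x)) (h : ∀ a b, P a → P' b → P'' (a * b)) {a : Q}
    (ha : Ev ψ P a) : ∀ b, Ev ψ P' b → Ev ψ P'' (a * b) := by
  induction ha with
  | base a ha =>
    intro b hb
    induction hb generalizing a with
    | base b hb => exact Ev.base _ (h a b ha hb)
    | step b _ ih =>
      refine Ev.step _ fun x => ?_
      rw [map_mul, Wr.mul_s]
      exact ih x _ (hP a ha _)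
  | step a _ ih =>
    intro b hb
    refine Ev.step _ fun x => ?_
    rw [map_mul, Wr.mul_s]
    refine ih _ _ ?_
    cases hb with
    | base b hb => exact Ev.base _ (hP' b hb x)
    | step b hb => exact hb x

theorem ev_ev {P P' : Q → Prop} (h : ∀ a, P a → Ev ψ P' a) {a : Q} (ha : Ev ψ P a) :
    Ev ψ P' a := by
  induction ha with
  | base a ha => exact h a ha
  | step a _ ih => exact Ev.step a ih

variable {E : Subgroup (T X)} (ι : E →* Q) (κ : BB d E →* Q)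

/-- products with at most `r` directed letters -/
inductive Lt : ℕ → Q → Prop
  | nil (a : E) : Lt 0 (ι a)
  | cons (r : ℕ) (a : E) (b : BB d E) (γ : Q) : Lt r γ → Lt (r + 1) (ι a * κ b * γ)

theorem lt_succ {r : ℕ} {γ : Q} (h : Lt ι κ r γ) : Lt ι κ (r + 1) γ := by
  have := Lt.cons r 1 1 γ h
  rwa [map_one, map_one, one_mul, one_mul] at this

theorem lt_mono {r s : ℕ} (hrs : r ≤ s) {γ : Q} (h : Lt ι κ r γ) : Lt ι κ s γ := by
  induction hrs with
  | refl => exact h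
  | step _ ih => exact lt_succ ι κ ih

theorem lt_mul_left {r : ℕ} {γ : Q} (h : Lt ι κ r γ) (a : E) : Lt ι κ r (ι a * γ) := by
  cases h with
  | nil b => rw [← map_mul]; exact Lt.nil _
  | cons r b c γ h =>
    rw [← mul_assoc, ← mul_assoc, ← map_mul]
    exact Lt.cons r _ c γ h

theorem lt_mul {r s : ℕ} {γ δ : Q} (h : Lt ι κ r γ) (h' : Lt ι κ s δ) :
    Lt ι κ (r + s) (γ * δ) := by
  induction h with
  | nil a => rw [zero_add]; exact lt_mul_left ι κ h' a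
  | cons r a b γ _ ih =>
    rw [mul_assoc, show r + 1 + s = (r + s) + 1 by omega]
    exact Lt.cons _ a b _ ih

theorem lt_b (b : BB d E) : Lt ι κ 1 (κ b) := by
  have := Lt.cons 0 1 b _ (Lt.nil (κ := κ) (ι := ι) 1)
  rwa [map_one, one_mul, mul_one] at this

theorem lt_inv {r : ℕ} {γ : Q} (h : Lt ι κ r γ) : Lt ι κ r γ⁻¹ := by
  induction h with
  | nil a => rw [← map_inv]; exact Lt.nil _
  | cons r a b γ _ ih =>
    rw [mul_inv_rev, mul_inv_rev, ← map_inv, ← map_inv]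
    have h1 := lt_mul ι κ ih (lt_mul ι κ (lt_b ι κ b⁻¹) (Lt.nil (κ := κ) (ι := ι) a⁻¹))
    exact h1

/-- the subgroup generated by the images -/
def Gn : Subgroup Q where
  carrier := {γ | ∃ r, Lt ι κ r γ}
  one_mem' := ⟨0, by have := Lt.nil (κ := κ) (ι := ι) 1; rwa [map_one] at this⟩
  mul_mem' := by
    rintro a b ⟨r, h⟩ ⟨s, h'⟩
    exact ⟨r + s, lt_mul ι κ h h'⟩
  inv_mem' := by
    rintro a ⟨r, h⟩
    exact ⟨r, lt_inv ι κ h⟩

variable {ψ} {ι κ}

theorem lt_b_sec (_hE : SelfSim E) (_hι : IsRH ψ E ι) (hκ : IsRB d ψ E ι κ) (b : BB d E) (x : X) :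
    Lt ι κ 1 ((ψ (κ b)).s x) := by
  by_cases hx : x = d
  · subst hx
    rw [hκ.sd b (bb_sec b.2)]
    exact lt_b ι κ _
  · rw [hκ.so b x hx (bb_off b.2 hx)]
    exact lt_succ ι κ (Lt.nil _)

theorem lt_sec (hE : SelfSim E) (hι : IsRH ψ E ι) (hκ : IsRB d ψ E ι κ) {r : ℕ} {γ : Q}
    (h : Lt ι κ r γ) : ∀ x, Lt ι κ r ((ψ γ).s x) := by
  induction h with
  | nil a =>
    intro x
    rw [hι.s a x (hE _ a.2 x)]
    exact Lt.nil _
  | cons r a b γ _ ih =>
    intro x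
    rw [map_mul, map_mul, Wr.mul_s, Wr.mul_s, hι.s a _ (hE _ a.2 _), show r + 1 = (0 + 1) + r by omega]
    exact lt_mul ι κ (lt_mul ι κ (Lt.nil _) (lt_b_sec hE hι hκ b _)) (ih x)

theorem two_off (hE : SelfSim E) (hι : IsRH ψ E ι) (hκ : IsRB d ψ E ι κ) {a : T X} (haE : a ∈ E)
    (b b' : BB d E) (x : X) (hx : x ≠ d) : Lt ι κ 1 ((ψ (κ b * ι ⟨a, haE⟩ * κ b')).s x) := by
  rw [map_mul, map_mul, Wr.mul_s, Wr.mul_s, hκ.so b' x hx (bb_off b'.2 hx),
    hι.s _ _ (hE _ haE _), show (1 : ℕ) = 1 + 0 + 0 by omega]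
  exact lt_mul ι κ (lt_mul ι κ (lt_b_sec hE hι hκ b _) (Lt.nil _)) (Lt.nil _)

theorem two_mv (hE : SelfSim E) (hι : IsRH ψ E ι) (hκ : IsRB d ψ E ι κ) {a : T X} (haE : a ∈ E)
    (b b' : BB d E) (hr : root a d ≠ d) : Lt ι κ 1 ((ψ (κ b * ι ⟨a, haE⟩ * κ b')).s d) := by
  have h1 : (ψ (κ b')).p d = d := by rw [hκ.p]; exact bb_root b'.2
  rw [map_mul, map_mul, Wr.mul_s, Wr.mul_s, h1, hι.p,
    hκ.so b _ hr (bb_off b.2 hr), hι.s _ _ (hE _ haE _), hκ.sd b' (bb_sec b'.2),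
    show (1 : ℕ) = 0 + 0 + 1 by omega]
  exact lt_mul ι κ (lt_mul ι κ (Lt.nil _) (Lt.nil _)) (lt_b ι κ _)

/-- two directed letters -/
theorem ev_two (hE : SelfSim E) (hι : IsRH ψ E ι) (hκ : IsRB d ψ E ι κ) {F : Subgroup (T X)}
    (hFE : F ≤ E) (hag : ∀ b (h1 : b ∈ E) (h2 : b ∈ BB d E), b ∈ BB d F → ι ⟨b, h1⟩ = κ ⟨b, h2⟩)
    {a : T X} (ha : Good d F a) : ∀ (haE : a ∈ E) (b b' : BB d E),
    Ev ψ (Lt ι κ 1) (κ b * ι ⟨a, haE⟩ * κ b') := by
  induction ha with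
  | bb a ha =>
    intro haE b b'
    refine Ev.base _ ?_
    rw [hag a haE (bb_mono hFE ha) ha, ← map_mul, ← map_mul]
    exact lt_b ι κ _
  | mv a ha =>
    intro haE b b'
    refine Ev.step _ fun x => Ev.base _ ?_
    by_cases hx : x = d
    · rw [hx]; exact two_mv hE hι hκ haE b b' ha
    · exact two_off hE hι hκ haE b b' x hx
  | st a _ ih =>
    intro haE b b'
    refine Ev.step _ fun x => ?_
    by_cases hx : x = d
    · by_cases hr : root a d = d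
      · have h1 : (ψ (κ b')).p d = d := by rw [hκ.p]; exact bb_root b'.2
        rw [hx, map_mul, map_mul, Wr.mul_s, Wr.mul_s, h1, hι.p, hr,
          hκ.sd b (bb_sec b.2), hι.s _ _ (hE _ haE _), hκ.sd b' (bb_sec b'.2)]
        exact ih _ _ _
      · rw [hx]; exact Ev.base _ (two_mv hE hι hκ haE b b' hr)
    · exact Ev.base _ (two_off hE hι hκ haE b b' x hx)

/-- all elements have eventually at most one directed letter -/
theorem ev_one (hE : SelfSim E) (hι : IsRH ψ E ι) (hκ : IsRB d ψ E ι κ) {F : Subgroup (T X)}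
    (hFE : F ≤ E) (hag : ∀ b (h1 : b ∈ E) (h2 : b ∈ BB d E), b ∈ BB d F → ι ⟨b, h1⟩ = κ ⟨b, h2⟩)
    (hg : ∀ a ∈ E, Good d F a) (r : ℕ) : ∀ γ, Lt ι κ r γ → Ev ψ (Lt ι κ 1) γ := by
  have hsec : ∀ s γ, Lt ι κ s γ → ∀ x, Lt ι κ s ((ψ γ).s x) := fun s γ h => lt_sec hE hι hκ h
  induction r using Nat.strong_induction_on with
  | _ r ih =>
    intro γ hγ
    cases hγ with
    | nil a => exact Ev.base _ (lt_succ ι κ (Lt.nil a))
    | cons r a b γ hγ =>
      cases hγ with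
      | nil c => exact Ev.base _ (Lt.cons 0 a b _ (Lt.nil c))
      | cons s a' b' γ hγ =>
        have h1 := ev_two hE hι hκ hFE hag (hg a'.1 a'.2) a'.2 b b'
        have h2 : Ev ψ (Lt ι κ 1) (ι a * (κ b * ι a' * κ b')) :=
          ev_mul (P := Lt ι κ 0) ψ (hsec 0) (hsec 1)
            (fun u v hu hv => by have := lt_mul ι κ hu hv; rwa [zero_add] at this)
            (Ev.base _ (Lt.nil a)) _ h1
        have h3 : Ev ψ (Lt ι κ (1 + s)) (ι a * (κ b * ι a' * κ b') * γ) :=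
          ev_mul ψ (hsec 1) (hsec s) (fun u v hu hv => lt_mul ι κ hu hv) h2 _ (Ev.base _ hγ)
        have h4 : ι a * κ b * (ι a' * κ b' * γ) = ι a * (κ b * ι a' * κ b') * γ := by group
        rw [h4]
        exact ev_ev ψ (fun u hu => ih (1 + s) (by omega) u hu) h3

end lev

/-! ## goodness of the next group -/

theorem isRH_sub {E : Subgroup (T X)} : IsRH (toWr X) E E.subtype := ⟨fun _ => rfl, fun _ _ _ => rfl⟩

theorem isRB_sub {E : Subgroup (T X)} : IsRB d (toWr X) E E.subtype (BB d E).subtype :=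
  ⟨fun _ => rfl, fun _ _ => rfl, fun _ _ _ _ => rfl⟩

theorem good_sup {E F : Subgroup (T X)} (hE : SelfSim E) (hFE : F ≤ E)
    (hg : ∀ a ∈ E, Good d F a) : ∀ a ∈ E ⊔ BB d E, Good d E a := by
  intro a ha
  have h1 : E ⊔ BB d E ≤ Gn E.subtype (BB d E).subtype := by
    refine sup_le (fun x hx => ⟨0, Lt.nil (⟨x, hx⟩ : E)⟩) (fun x hx => ⟨1, ?_⟩)
    exact lt_b E.subtype (BB d E).subtype ⟨x, hx⟩
  obtain ⟨r, hr⟩ := h1 ha
  have h2 := ev_one hE isRH_sub isRB_sub hFE (fun _ _ _ _ => rfl) hg r a hr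
  clear hr ha
  induction h2 with
  | base a h =>
    cases h with
    | cons r a b γ hγ =>
      cases hγ with
      | nil c => exact good_three hFE hE hg (hg c.1 c.2) c.2 _ a.2 _ b.2
  | step a _ ih => exact Good.st _ (ih d)

theorem good_E [Finite X] (n : ℕ) : ∀ a ∈ E d (n + 1), Good d (E d n) a := by
  induction n with
  | zero => exact good_zero
  | succ n ih =>
    rw [E_succ]
    exact good_sup (selfSim_E d _) (E_le_succ d n) ih

/-! ## dying elements -/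

section dies

variable {Q : Type} [Group Q] (ψ : Q →* Wr X Q)

theorem dies_inv_step {γ : Q} (h : Dies ψ γ) : (ψ γ).p = 1 ∧ ∀ x, Dies ψ ((ψ γ).s x) := by
  cases h with
  | one => rw [map_one]; exact ⟨rfl, fun x => Dies.one⟩
  | step _ h1 h2 => exact ⟨h1, h2⟩

theorem dies_mul {γ : Q} (h : Dies ψ γ) : ∀ δ, Dies ψ δ → Dies ψ (γ * δ) := by
  induction h with
  | one => intro δ hδ; rwa [one_mul]
  | step γ hp _ ih =>
    intro δ hδ
    obtain ⟨h1, h2⟩ := dies_inv_step ψ hδ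
    refine Dies.step _ ?_ fun x => ?_
    · rw [map_mul, Wr.mul_p, hp, h1, one_mul]
    · rw [map_mul, Wr.mul_s]
      exact ih _ _ (h2 x)

theorem dies_inv {γ : Q} (h : Dies ψ γ) : Dies ψ γ⁻¹ := by
  induction h with
  | one => rw [inv_one]; exact Dies.one
  | step γ hp _ ih =>
    refine Dies.step _ ?_ fun x => ?_
    · rw [map_inv, Wr.inv_p, hp, inv_one]
    · rw [map_inv, Wr.inv_s]
      exact ih _

theorem dies_conj {γ : Q} (h : Dies ψ γ) : ∀ δ, Dies ψ (δ * γ * δ⁻¹) := by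
  induction h with
  | one => intro δ; rw [mul_one, mul_inv_cancel]; exact Dies.one
  | step γ hp _ ih =>
    intro δ
    refine Dies.step _ ?_ fun x => ?_
    · rw [map_mul, map_mul, map_inv, Wr.mul_p, Wr.mul_p, Wr.inv_p, hp, mul_one, mul_inv_cancel]
    · rw [map_mul, map_mul, map_inv, Wr.mul_s, Wr.mul_s, hp, Wr.inv_s, Wr.inv_p]
      exact ih _ _

/-- the dying elements -/
def Kd : Subgroup Q where
  carrier := {γ | Dies ψ γ}
  one_mem' := Dies.one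
  mul_mem' := fun h h' => dies_mul ψ h _ h'
  inv_mem' := dies_inv ψ

instance : (Kd ψ).Normal := ⟨fun _ h δ => dies_conj ψ h δ⟩

theorem mem_Kd {γ : Q} : γ ∈ Kd ψ ↔ Dies ψ γ := Iff.rfl

variable {ψ}

/-- two copies of a directed automorphism of `E` differ by a dying element -/
theorem dies_bb {E F : Subgroup (T X)} {ι : E →* Q} {κ : BB d E →* Q} (hE : SelfSim E)
    (hι : IsRH ψ E ι) (hκ : IsRB d ψ E ι κ)
    (hFE : F ≤ E) (hag : ∀ b (h1 : b ∈ E) (h2 : b ∈ BB d E), b ∈ BB d F → ι ⟨b, h1⟩ = κ ⟨b, h2⟩)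
    {b : T X} (hb : Good d F b) : ∀ (h1 : b ∈ E) (h2 : b ∈ BB d E),
    Dies ψ ((ι ⟨b, h1⟩)⁻¹ * κ ⟨b, h2⟩) := by
  induction hb with
  | bb b hb =>
    intro h1 h2
    rw [hag b h1 h2 hb, inv_mul_cancel]
    exact Dies.one
  | mv b hb => exact fun _ h2 => absurd (bb_root h2) hb
  | st b _ ih =>
    intro h1 h2
    refine Dies.step _ ?_ fun x => ?_
    · rw [map_mul, map_inv, Wr.mul_p, Wr.inv_p, hι.p, hκ.p, inv_mul_cancel]
    · rw [map_mul, map_inv, Wr.mul_s, Wr.inv_s, hκ.p, hι.p]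
      have h3 : (root b)⁻¹ (root b x) = x := (root b).symm_apply_apply x
      change Dies ψ (((ψ (ι ⟨b, h1⟩)).s ((root b)⁻¹ (root b x)))⁻¹ * (ψ (κ ⟨b, h2⟩)).s x)
      rw [h3, hι.s _ _ (hE _ h1 _)]
      by_cases hx : x = d
      · subst hx
        rw [hκ.sd _ (bb_sec h2)]
        exact ih _ _
      · rw [hκ.so _ _ hx (bb_off h2 hx), inv_mul_cancel]
        exact Dies.one

/-- **elements which act trivially die** -/
theorem dies_of_tau' {E F : Subgroup (T X)} {ι : E →* Q} {κ : BB d E →* Q} (hE : SelfSim E)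
    (hι : IsRH ψ E ι) (hκ : IsRB d ψ E ι κ)
    (hFE : F ≤ E) (hag : ∀ b (h1 : b ∈ E) (h2 : b ∈ BB d E), b ∈ BB d F → ι ⟨b, h1⟩ = κ ⟨b, h2⟩)
    (hg : ∀ a ∈ E, Good d F a) {γ : Q} (hγ : γ ∈ Gn ι κ) (h : tau ψ γ = 1) : Dies ψ γ := by
  obtain ⟨r, hr⟩ := hγ
  have h2 := ev_one hE hι hκ hFE hag hg r γ hr
  clear hr
  induction h2 with
  | base γ hγ =>
    cases hγ with
    | cons r a b γ hγ =>
      cases hγ with
      | nil c =>
        rw [map_mul, map_mul, tau_rh hE hι, tau_rh hE hι, tau_rb hE hι hκ] at h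
        have h3 : b.1 = (c.1 * a.1)⁻¹ := by
          rw [eq_comm, inv_eq_iff_mul_eq_one]
          have h4 : c.1 * (a.1 * b.1 * c.1) * c.1⁻¹ = 1 := by rw [h, mul_one, mul_inv_cancel]
          rw [← h4]; group
        have h5 : b.1 ∈ E := by rw [h3]; exact inv_mem (mul_mem c.2 a.2)
        have h6 := dies_bb hE hι hκ hFE hag (hg _ h5) h5 b.2
        have h7 : (⟨b.1, h5⟩ : E) = (c * a)⁻¹ := Subtype.ext h3
        rw [h7, map_inv, inv_inv, map_mul] at h6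
        have h8 := dies_conj ψ h6 (ι c)⁻¹
        have h9 : ι a * κ b * ι c = (ι c)⁻¹ * (ι c * ι a * κ ⟨b.1, b.2⟩) * (ι c)⁻¹⁻¹ := by group
        rw [h9]
        exact h8
  | step γ _ ih =>
    refine Dies.step _ ?_ fun x => ih x ?_
    · rw [← root_tau, h, root_one]
    · rw [← sec_tau, h, sec_one]

end dies

/-! ## extension to the next group -/

section ext

variable {Q : Type} [Group Q] {ψ : Q →* Wr X Q}

theorem not_dies (hψ : Function.Injective ψ) {γ : Q} (h : Dies ψ γ) : γ = 1 := by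
  induction h with
  | one => rfl
  | step γ hp _ ih =>
    apply hψ
    rw [map_one]
    exact Wr.ext (funext ih) hp

/-- **the next group embeds** -/
theorem ext_next (hψ : Function.Injective ψ) {E F : Subgroup (T X)} {ι : E →* Q}
    {κ : BB d E →* Q} (hE : SelfSim E) (hι : IsRH ψ E ι) (hκ : IsRB d ψ E ι κ)
    (hFE : F ≤ E) (hag : ∀ b (h1 : b ∈ E) (h2 : b ∈ BB d E), b ∈ BB d F → ι ⟨b, h1⟩ = κ ⟨b, h2⟩)
    (hg : ∀ a ∈ E, Good d F a) :
    ∃ ι' : ↥(E ⊔ BB d E) →* Q, IsRH ψ (E ⊔ BB d E) ι' ∧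
      (∀ a (h1 : a ∈ E) (h2 : a ∈ E ⊔ BB d E), ι' ⟨a, h2⟩ = ι ⟨a, h1⟩) ∧
      (∀ b (h1 : b ∈ BB d E) (h2 : b ∈ E ⊔ BB d E), ι' ⟨b, h2⟩ = κ ⟨b, h1⟩) := by
  have hinj : ∀ γ ∈ Gn ι κ, ∀ δ ∈ Gn ι κ, tau ψ γ = tau ψ δ → γ = δ := by
    intro γ hγ δ hδ h
    have h1 : tau ψ (γ * δ⁻¹) = 1 := by rw [map_mul, map_inv, h, mul_inv_cancel]
    have h2 := not_dies hψ (dies_of_tau' hE hι hκ hFE hag hg (mul_mem hγ (inv_mem hδ)) h1)
    exact mul_inv_eq_one.1 h2
  have hιm : ∀ a, ι a ∈ Gn ι κ := fun a => ⟨0, Lt.nil a⟩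
  have hκm : ∀ b, κ b ∈ Gn ι κ := fun b => ⟨1, lt_b ι κ b⟩
  have hsurj : ∀ a : ↥(E ⊔ BB d E), ∃ γ ∈ Gn ι κ, tau ψ γ = a.1 := by
    have h1 : E ⊔ BB d E ≤ (Gn ι κ).map (tau ψ) := by
      refine sup_le (fun a ha => ⟨ι ⟨a, ha⟩, hιm _, tau_rh hE hι _⟩)
        (fun b hb => ⟨κ ⟨b, hb⟩, hκm _, tau_rb hE hι hκ _⟩)
    exact fun a => h1 a.2
  choose f hf1 hf2 using hsurj
  have hfe : ∀ a, ∀ γ ∈ Gn ι κ, tau ψ γ = a.1 → f a = γ := fun a γ h h' =>
    hinj _ (hf1 a) γ h ((hf2 a).trans h'.symm)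
  let ι' : ↥(E ⊔ BB d E) →* Q :=
    { toFun := f
      map_one' := hfe _ _ (one_mem _) (map_one _)
      map_mul' := fun a b => hfe _ _ (mul_mem (hf1 a) (hf1 b)) (by
        rw [map_mul, hf2, hf2]; rfl) }
  refine ⟨ι', ⟨fun a => ?_, fun a x hx => ?_⟩, fun a h1 h2 => ?_, fun b h1 h2 => ?_⟩
  · change (ψ (f a)).p = _
    rw [← root_tau, hf2]
  · change (ψ (f a)).s x = f _
    refine (hfe _ _ ?_ ?_).symm
    · obtain ⟨r, hr⟩ := hf1 a
      exact ⟨r, lt_sec hE hι hκ hr x⟩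
    · rw [← sec_tau, hf2]
  · exact hfe _ _ (hιm _) (tau_rh hE hι _)
  · exact hfe _ _ (hκm _) (tau_rb hE hι hκ _)

end ext

end Pool.Agent.K3h28.PA
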